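import Mathlib

/-!
# MP_64c6ca_gt: homotopy types realised by partial model categories. Definitions
-/

set_option autoImplicit false

open CategoryTheory MonoidalCategory CartesianMonoidalCategory Simplicial HomotopicalAlgebra Limits
  Opposite

universe v u

namespace Pool.Agent.PMC

open SSet SSet.modelCategoryQuillen

/-- Two maps of simplicial sets are (simplicially) homotopic: there is `h : X × Δ[1] ⟶ Y` which is
`f` on `X × {0}` and `g` on `X × {1}`. For a Kan complex `Y` this is an equivalence relation. -/
def Htpy {X Y : SSet.{u}} (f g : X ⟶ Y) : Prop := Nonempty (SSet.Homotopy f g)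

/-- Weak homotopy equivalences of simplicial sets: for every Kan complex `K` composition with `f`
is a bijection from the homotopy classes of maps `Y ⟶ K` to the homotopy classes of maps
`X ⟶ K`. -/
def WEq {X Y : SSet.{u}} (f : X ⟶ Y) : Prop :=
  ∀ (K : SSet.{u}) [KanComplex K],
    (∀ a : X ⟶ K, ∃ b : Y ⟶ K, Htpy (f ≫ b) a) ∧
      ∀ b b' : Y ⟶ K, Htpy (f ≫ b) (f ≫ b') → Htpy b b'

/-- A partial model category: a relative category `(M, W)` with classes `C` (acyclic cofibrations)
and `F` (acyclic fibrations). -/
structure PartialModel (M : Type u) [Category.{v} M] where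
  /-- weak equivalences -/
  W : MorphismProperty M
  /-- acyclic cofibrations -/
  C : MorphismProperty M
  /-- acyclic fibrations -/
  F : MorphismProperty M
  /-- `W` contains the identities and is closed under composition -/
  mult : W.IsMultiplicative
  C_le : C ≤ W
  F_le : F ≤ W
  /-- 2-out-of-6 -/
  two_six : ∀ {X₀ X₁ X₂ X₃ : M} (r : X₀ ⟶ X₁) (s : X₁ ⟶ X₂) (t : X₂ ⟶ X₃),
    W (r ≫ s) → W (s ≫ t) → W r ∧ W s ∧ W t ∧ W (r ≫ s ≫ t)
  /-- every `f ∈ C` has a pushout along any morphism -/
  push : ∀ {X Y Z : M} (f : X ⟶ Y) (g : X ⟶ Z), C f → HasPushout f g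
  /-- and this pushout is in `C` -/
  push_mem : ∀ {X Y Z P : M} (f : X ⟶ Y) (g : X ⟶ Z) (g' : Y ⟶ P) (f' : Z ⟶ P),
    C f → IsPushout f g g' f' → C f'
  /-- every `f ∈ F` has a pullback along any morphism -/
  pull : ∀ {X Y Z : M} (f : X ⟶ Z) (g : Y ⟶ Z), F f → HasPullback f g
  /-- and this pullback is in `F` -/
  pull_mem : ∀ {P X Y Z : M} (g' : P ⟶ X) (f' : P ⟶ Y) (f : X ⟶ Z) (g : Y ⟶ Z),
    F f → IsPullback g' f' f g → F f'
  /-- functorial factorization of the morphisms of the category `W` into `C` and `F` -/
  fact : Nonempty (MorphismProperty.FunctorialFactorizationData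
    (C.inverseImage (wideSubcategoryInclusion W)) (F.inverseImage (wideSubcategoryInclusion W)))

/-- The category of weak equivalences of a partial model category. -/
abbrev PartialModel.Weak {M : Type u} [Category.{v} M] (P : PartialModel M) : Type u :=
  letI := P.mult
  WideSubcategory P.W

instance {M : Type u} [Category.{v} M] (P : PartialModel M) : Category.{v} P.Weak :=
  letI := P.mult
  inferInstanceAs (Category.{v} (WideSubcategory P.W))

/-- The main statement. -/
def Main : Prop :=
  ∀ (D : Type u) [SmallCategory D], ∃ (M : Type u) (_ : SmallCategory M) (P : PartialModel M)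
    (F : D ⥤ P.Weak), WEq (nerveMap F)

end Pool.Agent.PMC
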