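import Pool.Agent.Lib.MP_64c6ca_gt.Defs

/-!
# MP_64c6ca_gt: statements of the modules

Every `def X : Prop` in the second part of this file is one module: prove `theorem s_X : X` or
`theorem s_X (h1 : Y1) (h2 : Y2) : X` in the file `Pool/Agent/Lib/MP_64c6ca_gt/p_X.lean` (namespace
`Pool.Agent.PMC`, import this file). All modules are independent of each other: the modules which may
be used are hypotheses, named in the docstring. Statements are universe polymorphic: write
`theorem s_X (h1 : Y1.{u}) : X.{u}`.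

The Mathlib files to look at: `AlgebraicTopology/SimplicialSet/*` (`Monoidal`: `ι₀`, `ι₁`;
`Homotopy`; `KanComplex`; `CategoryWithFibrations`; `Skeleton`; `Nerve`; `AnodyneExtensions/*`:
`anodyneExtensions_pushoutObjObjι`, `Fibration ((MonoidalClosed.pre i).app X)`).
-/

set_option autoImplicit false
set_option linter.unusedVariables false

open CategoryTheory MonoidalCategory CartesianMonoidalCategory Simplicial HomotopicalAlgebra Limits
  Opposite

universe w v u

namespace Pool.Agent.PMC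

open SSet SSet.modelCategoryQuillen

/-! ## Definitions -/

/-- weakly contractible simplicial sets -/
def WCtr (X : SSet.{u}) : Prop := WEq (toUnit X)

/-- left lifting property against all Kan fibrations between Kan complexes -/
def TC {A B : SSet.{u}} (j : A ⟶ B) : Prop :=
  ∀ ⦃K L : SSet.{u}⦄ (p : K ⟶ L) [Fibration p] [KanComplex L], HasLiftingProperty j p

section els

variable {A : Type u} [SmallCategory A]

/-- the category of elements of a presheaf -/
structure Els (T : Aᵒᵖ ⥤ Type u) : Type u where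
  a : A
  t : T.obj (op a)

instance (T : Aᵒᵖ ⥤ Type u) : SmallCategory (Els T) where
  Hom x y := {f : x.a ⟶ y.a // T.map f.op y.t = x.t}
  id x := ⟨𝟙 _, by simp⟩
  comp {x y z} f g := ⟨f.1 ≫ g.1, by rw [op_comp, Functor.map_comp_apply, g.2, f.2]⟩
  id_comp f := Subtype.ext (Category.id_comp _)
  comp_id f := Subtype.ext (Category.comp_id _)
  assoc f g h := Subtype.ext (Category.assoc _ _ _)

/-- functoriality of the category of elements -/
def elsMap {T T' : Aᵒᵖ ⥤ Type u} (φ : T ⟶ T') : Els T ⥤ Els T' where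
  obj x := ⟨x.a, φ.app _ x.t⟩
  map {x y} f := ⟨f.1, by rw [← NatTrans.naturality_apply, f.2]⟩
  map_id _ := rfl
  map_comp _ _ := rfl

/-- the category of elements has a weakly contractible nerve -/
def Asph (T : Aᵒᵖ ⥤ Type u) : Prop := WCtr (nerve (Els T))

/-- products of presheaves -/
def Pr (T J : Aᵒᵖ ⥤ Type u) : Aᵒᵖ ⥤ Type u where
  obj a := T.obj a × J.obj a
  map f := ↾fun x => (T.map f x.1, J.map f x.2)
  map_id a := by ext x <;> simp
  map_comp f g := by ext x <;> simp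

/-- the first projection -/
def prFst (T J : Aᵒᵖ ⥤ Type u) : Pr T J ⟶ T where
  app _ := ↾fun x => x.1
  naturality _ _ _ := rfl

/-- the cofree presheaf on the sets `Option (T b)` -/
def JP (T : Aᵒᵖ ⥤ Type u) : Aᵒᵖ ⥤ Type u where
  obj a := ∀ b : A, (b ⟶ a.unop) → Option (T.obj (op b))
  map φ := ↾fun s b θ => s b (θ ≫ φ.unop)
  map_id a := by ext s; simp
  map_comp f g := by ext s; simp

/-- the class of presheaves `J` such that products with `J` preserve asphericity -/
def Good (J : Aᵒᵖ ⥤ Type u) : Prop := ∀ T : Aᵒᵖ ⥤ Type u, Asph T → Asph (Pr T J)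

variable (A) in
/-- the bound for the size of presheaves: `2 ^ κ`, `κ` infinite and at least the number of arrows -/
noncomputable def bd : Cardinal.{u} :=
  2 ^ (Cardinal.aleph0 + Cardinal.mk (Σ a : A, Σ b : A, (a ⟶ b)))

/-- bounded presheaves -/
def Bd (T : Aᵒᵖ ⥤ Type u) : Prop := ∀ a : Aᵒᵖ, Cardinal.mk (T.obj a) ≤ bd A

variable (A) in
/-- the objects of the partial model category: bounded presheaves with a weakly contractible
category of elements -/
def PB : ObjectProperty (Aᵒᵖ ⥤ Type u) := fun T => Asph T ∧ Bd T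

end els

/-- discrete cubes: `El n` has `2 ^ n` elements -/
def El (n : ℕ) : Type := Nat.rec PUnit (fun _ E => E × Bool) n

/-- the category of the finite sets `El n` and all maps -/
structure Th : Type where
  n : ℕ

instance : SmallCategory Th where
  Hom x y := El x.n → El y.n
  id _ := id
  comp f g := g ∘ f

/-- The structure `(C, F)` of a partial model category in which all morphisms are weak
equivalences. -/
structure CF (M : Type u) [Category.{v} M] where
  C : MorphismProperty M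
  F : MorphismProperty M
  push : ∀ {X Y Z : M} (f : X ⟶ Y) (g : X ⟶ Z), C f → HasPushout f g
  push_mem : ∀ {X Y Z P : M} (f : X ⟶ Y) (g : X ⟶ Z) (g' : Y ⟶ P) (f' : Z ⟶ P),
    C f → IsPushout f g g' f' → C f'
  pull : ∀ {X Y Z : M} (f : X ⟶ Z) (g : Y ⟶ Z), F f → HasPullback f g
  pull_mem : ∀ {P X Y Z : M} (g' : P ⟶ X) (f' : P ⟶ Y) (f : X ⟶ Z) (g : Y ⟶ Z),
    F f → IsPullback g' f' f g → F f'
  fact : Nonempty (MorphismProperty.FunctorialFactorizationData C F)

/-! ## Part 1: lifting -/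

/-- **LiftPP** (no hypotheses). The lifting property of the pushout-product of a monomorphism and an
anodyne extension against a Kan fibration. Proof: `SSet.anodyneExtensions_pushoutObjObjι` for
`Functor.PushoutObjObj.ofHasPushout (curriedTensor SSet) i j`; `a`, `b` define a map from the pushout
(`pushout.desc` / `IsPushout.desc`) and `anodyneExtensions = (fibrations _).llp`. -/
def LiftPP : Prop :=
  ∀ {A B C D E S : SSet.{u}} (i : A ⟶ B) [Mono i] (j : C ⟶ D) (_ : anodyneExtensions j)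
    (p : E ⟶ S) [Fibration p] (a : B ⊗ C ⟶ E) (b : A ⊗ D ⟶ E) (c : B ⊗ D ⟶ S),
    (i ▷ C) ≫ a = (A ◁ j) ≫ b → a ≫ p = (B ◁ j) ≫ c → b ≫ p = (i ▷ D) ≫ c →
      ∃ t : B ⊗ D ⟶ E, (B ◁ j) ≫ t = a ∧ (i ▷ D) ≫ t = b ∧ t ≫ p = c

/-- **Hle** (hypothesis `LiftPP`). Homotopy lifting extension property. Proof: `LiftPP` with `j` the
inclusion of the vertex `0` in `Δ[1]` (a horn inclusion, or `Δ[0] ⟶ Δ[1]`, or `𝟙_ ⟶ Δ[1]`), and
`B ⊗ 𝟙_ ≅ B`. -/
def Hle : Prop :=
  ∀ {A B E S : SSet.{u}} (i : A ⟶ B) [Mono i] (p : E ⟶ S) [Fibration p] (e : B ⟶ E)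
    (h : A ⊗ Δ[1] ⟶ E) (c : B ⊗ Δ[1] ⟶ S),
    i ≫ e = ι₀ ≫ h → e ≫ p = ι₀ ≫ c → h ≫ p = (i ▷ Δ[1]) ≫ c →
      ∃ t : B ⊗ Δ[1] ⟶ E, ι₀ ≫ t = e ∧ (i ▷ Δ[1]) ≫ t = h ∧ t ≫ p = c

/-- **MonoI** (no hypotheses). Proof: monomorphisms of simplicial sets are injective in every degree
(`NatTrans.mono_iff_mono_app`, `mono_iff_injective`); elements of a coproduct come from one of the
summands (evaluate: coproducts of presheaves are computed pointwise; or use that `ι₀`, `ι₁` are
monomorphisms with disjoint ranges: in degree `n` the second components are constant `0`,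
constant `1`). -/
def MonoI : Prop := ∀ X : SSet.{u}, Mono (coprod.desc (ι₀ : X ⟶ X ⊗ Δ[1]) ι₁)

/-- **Sq** (hypotheses `Hle`, `MonoI`). Proof: `Hle` for the monomorphism
`coprod.desc ι₀ ι₁ : X ⨿ X ⟶ X ⊗ Δ[1]`; the map `h : (X ⨿ X) ⊗ Δ[1] ⟶ E` is the map with the
components `h₀`, `h₁` (`- ⊗ Δ[1]` preserves coproducts: it is a left adjoint, use the braiding and
`MonoidalClosed.curry`, or `coprod.desc` of the curried maps). -/
def Sq : Prop :=
  ∀ {X E S : SSet.{u}} (p : E ⟶ S) [Fibration p] (e h₀ h₁ : X ⊗ Δ[1] ⟶ E)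
    (c : (X ⊗ Δ[1]) ⊗ Δ[1] ⟶ S),
    ι₀ ≫ e = ι₀ ≫ h₀ → ι₁ ≫ e = ι₀ ≫ h₁ → e ≫ p = ι₀ ≫ c → h₀ ≫ p = (ι₀ ▷ Δ[1]) ≫ c →
    h₁ ≫ p = (ι₁ ▷ Δ[1]) ≫ c →
      ∃ t : (X ⊗ Δ[1]) ⊗ Δ[1] ⟶ E, ι₀ ≫ t = e ∧ (ι₀ ▷ Δ[1]) ≫ t = h₀ ∧
        (ι₁ ▷ Δ[1]) ≫ t = h₁ ∧ t ≫ p = c

/-- **HtpyB** (hypothesis `Sq`). For maps to a Kan complex homotopy is symmetric and transitive.
Proof: `Sq` for `p = terminal.from K` (a fibration), and `ι₁ ≫ t` is the homotopy. Symmetry: `H`
from `f` to `g`; `e = fst ≫ f` (constant), `h₀ = H.h`, `h₁ = fst ≫ f`; then `ι₁ ≫ t` goes from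
`ι₀ ≫ ι₁ ≫ t = ι₁ ≫ (ι₀ ▷ Δ[1]) ≫ t = ι₁ ≫ H.h = g` to `f`. Transitivity: `H` from `f` to `g`, `H'`
from `g` to `h`; `e = H.h`, `h₀ = fst ≫ f`, `h₁ = H'.h`. -/
def HtpyB : Prop :=
  ∀ {X K : SSet.{u}} [KanComplex K] {f g h : X ⟶ K},
    (Htpy f g → Htpy g f) ∧ (Htpy f g → Htpy g h → Htpy f h)

/-- **WEqB** (hypothesis `HtpyB`). Basic properties of weak equivalences: isomorphisms, 2 out of 3,
homotopic maps, homotopy equivalences. Proof: for all maps `Htpy f g → Htpy (k ≫ f) (k ≫ g)`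
(`(k ▷ Δ[1]) ≫ H.h`) and `Htpy f g → Htpy (f ≫ k) (g ≫ k)` (`H.h ≫ k`), for maps to a Kan
complex `Htpy` is an equivalence relation (reflexive: `fst ≫ f`). Last claim: by induction on `EqvGen`,
for `b : X ⟶ K`, `K` Kan, `EqvGen Htpy x y → Htpy (x ≫ b) (y ≫ b)`. So `b = g ≫ a` for `a : X ⟶ K`
gives `f ≫ b ~ a`; if `f ≫ b ~ f ≫ b'` then `b ~ g ≫ f ≫ b ~ g ≫ f ≫ b' ~ b'`. -/
def WEqB : Prop :=
  (∀ {X Y : SSet.{u}} (f : X ⟶ Y) [IsIso f], WEq f) ∧
  (∀ {X Y Z : SSet.{u}} (f : X ⟶ Y) (g : Y ⟶ Z), WEq f → WEq g → WEq (f ≫ g)) ∧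
  (∀ {X Y Z : SSet.{u}} (f : X ⟶ Y) (g : Y ⟶ Z), WEq f → WEq (f ≫ g) → WEq g) ∧
  (∀ {X Y Z : SSet.{u}} (f : X ⟶ Y) (g : Y ⟶ Z), WEq g → WEq (f ≫ g) → WEq f) ∧
  (∀ {X Y : SSet.{u}} (f g : X ⟶ Y), Htpy f g → (WEq f ↔ WEq g)) ∧
  (∀ {X Y : SSet.{u}} (f : X ⟶ Y) (g : Y ⟶ X), Relation.EqvGen Htpy (f ≫ g) (𝟙 X) →
    Relation.EqvGen Htpy (g ≫ f) (𝟙 Y) → WEq f)

/-- **Dold** (hypotheses `Hle`, `Sq`). A Kan fibration with a section `s` such that `p ≫ s` is
homotopic to the identity has the right lifting property against all monomorphisms. Proof. Let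
`h : E ⊗ Δ[1] ⟶ E` be the homotopy, `ι₀ ≫ h = p ≫ s`, `ι₁ ≫ h = 𝟙`. (1) `Sq` with `X = E`,
`e = fst ≫ p ≫ s`, `h₀ = h ≫ p ≫ s`, `h₁ = h`, `c : (E ⊗ Δ[1]) ⊗ Δ[1] ⟶ S` the map
`(x, t, r) ↦ p (h (x, r))`, i.e. `c = (fst ▷ Δ[1]) ≫ h ≫ p`. Then `H' = ι₁ ≫ t` satisfies
`ι₀ ≫ H' = p ≫ s`, `ι₁ ≫ H' = 𝟙`, `H' ≫ p = fst ≫ p`. (2) For a monomorphism `i : A ⟶ B` and a
commutative square `a ≫ p = i ≫ b` use `Hle` with `e = b ≫ s`, `h = (a ▷ Δ[1]) ≫ H'`,
`c = fst ≫ b`; the lift is `ι₁ ≫ t`. -/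
def Dold : Prop :=
  ∀ {E S : SSet.{u}} (p : E ⟶ S) [Fibration p] (s : S ⟶ E), s ≫ p = 𝟙 S →
    Htpy (p ≫ s) (𝟙 E) → (MorphismProperty.monomorphisms SSet.{u}).rlp p

/-- **RestTriv** (hypotheses `Hle`, `HtpyB`, `Dold`). Restriction along a monomorphism which is a
weak equivalence is a trivial fibration of mapping complexes. Proof. Let
`q = (MonoidalClosed.pre j).app K : E ⟶ S`, `E = (ihom B).obj K`, `S = (ihom A).obj K`; both are Kan
complexes and `q` is a fibration (Mathlib instances). (1) For every `X` composition with `q` is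
bijective on homotopy classes of maps from `X`: maps `X ⟶ (ihom B).obj K` correspond to maps
`B ⊗ X ⟶ K`, and by the braiding to maps `B ⟶ (ihom X).obj K`, a Kan complex; homotopies correspond
to homotopies; so this is `WEq j` for the Kan complex `(ihom X).obj K`. (2) `X = S`: there is
`s' : S ⟶ E` with `s' ≫ q` homotopic to `𝟙`; by `Hle` with `A = ∅` (initial object; lift the
homotopy starting at `s'`) there is `s` with `s ≫ q = 𝟙`. (3) `X = E`: `(q ≫ s) ≫ q = q`, so
`q ≫ s` is homotopic to `𝟙` (`HtpyB`). (4) `Dold`. -/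
def RestTriv : Prop :=
  ∀ {A B : SSet.{u}} (j : A ⟶ B) [Mono j], WEq j → ∀ (K : SSet.{u}) [KanComplex K],
    (MorphismProperty.monomorphisms SSet.{u}).rlp ((MonoidalClosed.pre j).app K)

/-- **TCofWEq** (hypotheses `Hle`, `MonoI`, `RestTriv`). Proof. Let `p : K ⟶ L` be a fibration, `L`
(hence `K`) a Kan complex, `a : A ⟶ K`, `b : B ⟶ L`, `a ≫ p = j ≫ b`. (1) Lifting in `RestTriv` for
`K` against `∅ ⟶ 𝟙_`: there is `b₁ : B ⟶ K` with `j ≫ b₁ = a`. (2) Lifting in `RestTriv` for `L`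
against `coprod.desc ι₀ ι₁ : 𝟙_ ⨿ 𝟙_ ⟶ 𝟙_ ⊗ Δ[1]` (`MonoI`): there is a homotopy
`c : B ⊗ Δ[1] ⟶ L` from `b₁ ≫ p` to `b` which is constant on `A`: `(j ▷ Δ[1]) ≫ c = fst ≫ j ≫ b`.
(3) `Hle` with `e = b₁`, `h = fst ≫ a`, and this `c`; the lift is `ι₁ ≫ t`. -/
def TCofWEq : Prop := ∀ {A B : SSet.{u}} (j : A ⟶ B) [Mono j], WEq j → TC j

/-- **WEqofTC** (hypotheses `MonoI`). Proof. Surjectivity: lift against `K ⟶ ⊤_`. Injectivity: let
`b b' : B ⟶ K` and `h : A ⊗ Δ[1] ⟶ K` a homotopy from `j ≫ b` to `j ≫ b'`. The restriction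
`(ihom (𝟙_ ⊗ Δ[1])).obj K ⟶ (ihom (𝟙_ ⨿ 𝟙_)).obj K` along `m = coprod.desc ι₀ ι₁` (`MonoI`) is a
fibration of Kan complexes (Mathlib: `(MonoidalClosed.pre m).app K`). The homotopy `h` and the pair
`(b, b')` give a commutative square from `j` to it; the lift gives the homotopy from `b` to `b'`. -/
def WEqofTC : Prop := ∀ {A B : SSet.{u}} (j : A ⟶ B), TC j → WEq j

/-- **Loc** (hypotheses `WEqB`, `TCofWEq`, `WEqofTC`). A monomorphism `j : E ⟶ C` over `B` is a weak
equivalence if its pullback to every simplex of `B` is. Owner: helper50. -/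
def Loc : Prop :=
  ∀ {B C E : SSet.{u}} (c : C ⟶ B) (j : E ⟶ C) [Mono j],
    (∀ (n : ℕ) (σ : Δ[n] ⟶ B), ∃ (E' C' : SSet.{u}) (e' : E' ⟶ E) (c' : C' ⟶ C) (s : C' ⟶ Δ[n])
      (j' : E' ⟶ C'), IsPullback c' s c σ ∧ IsPullback e' j' j c' ∧ WEq j') → WEq j

/-! ## Part 2: nerves -/

/-- **NerveHtpy** (no hypotheses). A natural transformation gives a homotopy. Proof: in degree `m` a
pair (`H : ComposableArrows C m`, `ε : Δ[1] _⦋m⦌`, i.e. a monotone map `Fin (m+1) → Fin 2`) goes to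
the functor `Fin (m+1) ⥤ D`, `k ↦ F (H k)` if `ε k = 0`, `G (H k)` if `ε k = 1`: compose
`Fin (m+1) ⥤ Fin 2 × C` (`ε` and `H`) with the uncurried functor of
`ComposableArrows.mk₁ α : Fin 2 ⥤ (C ⥤ D)`. -/
def NerveHtpy : Prop :=
  ∀ {C D : Type u} [SmallCategory C] [SmallCategory D] (F G : C ⥤ D) (_ : F ⟶ G),
    Htpy (nerveMap F) (nerveMap G)

/-- **NerveB** (hypotheses `WEqB`, `NerveHtpy`). (1) Functors `F : C ⥤ D`, `G : D ⥤ C` such that
`F ⋙ G` and `𝟭 C`, `G ⋙ F` and `𝟭 D` are joined by zigzags of natural transformations (`EqvGen` of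
the relation that there is a natural transformation) give weak equivalences of nerves. (2) The nerve
of a category with a terminal object is weakly contractible. (3) A category `C` with a functor to a
category with weakly contractible nerve which is a weak equivalence of nerves has weakly contractible
nerve. Proof: (1) `nerveMap (F ⋙ G) = nerveMap F ≫ nerveMap G`, last part of `WEqB`. (2) (1) for
`C ⥤ Discrete PUnit`; the nerve of `Discrete PUnit` is isomorphic to `𝟙_` (exactly one simplex in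
every degree). (3) 2 out of 3 for `toUnit`. -/
def NerveB : Prop :=
  (∀ {C D : Type u} [SmallCategory C] [SmallCategory D] (F : C ⥤ D) (G : D ⥤ C),
    Relation.EqvGen (fun S T : C ⥤ C => Nonempty (S ⟶ T)) (F ⋙ G) (𝟭 C) →
    Relation.EqvGen (fun S T : D ⥤ D => Nonempty (S ⟶ T)) (G ⋙ F) (𝟭 D) → WEq (nerveMap F)) ∧
  (∀ {C : Type u} [SmallCategory C] (t : C), Nonempty (IsTerminal t) → WCtr (nerve C)) ∧
  (∀ {C D : Type u} [SmallCategory C] [SmallCategory D] (F : C ⥤ D), WEq (nerveMap F) →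
    (WCtr (nerve C) ↔ WCtr (nerve D)))

/-- **NerveFib** (no hypotheses). For a functor `F : A ⥤ Z` and a simplex `σ` of the nerve of `Z`,
i.e. a functor `Fin (n+1) ⥤ Z`, the pullback of the nerve of the comma category
`Comma F (𝟭 Z) ⥤ Z` along `σ` is the nerve of `Comma F σ`. Proof: check in every degree `m` that the
square of sets is a pullback. Simplices of `nerve (Comma L R)` are functors
`Fin (m+1) ⥤ Comma L R`, i.e. triples `(G, H, τ)`, `G : Fin (m+1) ⥤ _`, `H : Fin (m+1) ⥤ _`,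
`τ : G ⋙ L ⟶ H ⋙ R` (all structure eta). Given a simplex `(G, H, τ)` of `nerve (Comma F (𝟭 Z))`
and `θ : Fin (m+1) ⥤ Fin (n+1)` with `H = θ ⋙ σ` (substitute `H`) the simplex of
`nerve (Comma F σ)` is `(G, θ, τ)`. The functor `Comma F σ ⥤ Comma F (𝟭 Z)` sends `(a, i, f)` to
`(a, σ i, f)`. -/
def NerveFib : Prop :=
  ∀ {A Z : Type u} [SmallCategory A] [SmallCategory Z] (F : A ⥤ Z) (n : ℕ)
    (σ : Δ[n] ⟶ nerve Z), ∃ (S : Fin (n + 1) ⥤ Z) (s : nerve (Comma F S) ⟶ Δ[n])
      (e : nerve (Comma F S) ⟶ nerve (Comma F (𝟭 Z))),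
      IsPullback e s (nerveMap (Comma.snd F (𝟭 Z))) σ

/-- **QuillenA** (hypotheses `WEqB`, `NerveB`, `NerveHtpy`, `NerveFib`, `Loc`). Quillen's Theorem A.
Proof. Let `𝓔 = Comma F (𝟭 Z)`, `π = nerveMap (Comma.snd _ _) : nerve 𝓔 ⟶ nerve Z`. (1) The functor
`Comma.fst : 𝓔 ⥤ A` and the functor `A ⥤ 𝓔`, `a ↦ (a, F a, 𝟙)` satisfy (1) of `NerveB`
(`A ⥤ 𝓔 ⥤ A` is the identity, and there is a natural transformation `(a, F a, 𝟙) ⟶ (a, z, f)`), so
`nerveMap Comma.fst` is a weak equivalence. There is a natural transformation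
`Comma.fst ⋙ F ⟶ Comma.snd`. So it is enough to show that `π` is a weak equivalence (`WEqB`,
`NerveHtpy`). (2) Let `X` be the nerve of `WithTerminal 𝓔` (`NerveB` (2): weakly contractible),
`C = nerve Z ⊗ X`, `j = lift π (nerveMap WithTerminal.incl) : nerve 𝓔 ⟶ C`, a monomorphism
(`WithTerminal.incl` is injective on objects and faithful; or any functor with a retraction on
simplices). `fst : C ⟶ nerve Z` is a weak equivalence (`X` is weakly contractible: the inverse is
given by a terminal object, `NerveB` for `Z × WithTerminal 𝓔`, or `WEqB`). So it is enough that `j`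
is a weak equivalence: `Loc` with `c = fst`. (3) Let `σ : Δ[n] ⟶ nerve Z`, `E' = nerve (Comma F S)` as
in `NerveFib`, `C' = Δ[n] ⊗ X`, `j' = lift s (e ≫ nerveMap incl)`. Both squares are pullbacks.
`C'` is weakly contractible (`Δ[n]` is the nerve of a category with a terminal object). `E'` is
weakly contractible: the functor `Comma F S ⥤ CostructuredArrow F (S n)`,
`(a, i, f) ↦ (a, f ≫ S (i ≤ n))` and the functor `(a, f) ↦ (a, n, f)` satisfy (1) of `NerveB`, and
`nerve (CostructuredArrow F (S n))` is weakly contractible by hypothesis. So `j'` is a weak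
equivalence by 2 out of 3. -/
def QuillenA : Prop :=
  ∀ {A Z : Type u} [SmallCategory A] [SmallCategory Z] (F : A ⥤ Z),
    (∀ z, WCtr (nerve (CostructuredArrow F z))) → WEq (nerveMap F)

/-! ## Part 3: presheaves -/

/-- **AsphYo** (hypothesis `NerveB`). Proof: `⟨a, 𝟙 a⟩` is a terminal object of
`Els (yoneda.obj a)`. -/
def AsphYo : Prop :=
  ∀ {A : Type u} [SmallCategory A] (a : A), Asph (yoneda.obj a)

/-- **AsphIso** (hypothesis `NerveB`). Proof: `elsMap` of an isomorphism and of its inverse are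
inverse functors (use natural isomorphisms). -/
def AsphIso : Prop :=
  ∀ {A : Type u} [SmallCategory A] {T T' : Aᵒᵖ ⥤ Type u} (_ : T ≅ T'), Asph T → Asph T'

/-- **NervePush** (no hypotheses). The nerve of the category of elements preserves pushouts of
monomorphisms. Proof. A simplex of `nerve (Els T)` in degree `m` is the same as a functor
`G : Fin (m+1) ⥤ A` and an element `t` of `T (G m)` (`m` the last object): the functor
`H : Fin (m+1) ⥤ Els T` is `k ↦ (G k, T (G k ⟶ G m) t)`. Pushouts of simplicial sets are computed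
pointwise; in degree `m`, for fixed `G`, it is the pushout square `T (G m)` of sets, and disjoint
unions over all `G` of pushout squares are pushout squares (or check directly: the square of
monomorphisms is a pullback, `P (G m)` is the union of the images, and `T₁ (G m)` is injective
outside `T₀ (G m)`; compare `SSet.relativeCellComplexOfMono.isPushout_aux` in `Skeleton.lean`). -/
def NervePush : Prop :=
  ∀ {A : Type u} [SmallCategory A] {T₀ T₁ T₂ P : Aᵒᵖ ⥤ Type u} (f : T₀ ⟶ T₁) (g : T₀ ⟶ T₂)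
    (g' : T₁ ⟶ P) (f' : T₂ ⟶ P) [Mono f], IsPushout f g g' f' →
    Mono (nerveMap (elsMap f)) ∧
    IsPushout (nerveMap (elsMap f)) (nerveMap (elsMap g)) (nerveMap (elsMap g'))
      (nerveMap (elsMap f'))

/-- **AsphPush** (hypotheses `WEqB`, `TCofWEq`, `WEqofTC`, `NervePush`). Proof: the map
`nerve (Els T₀) ⟶ nerve (Els T₁)` is a monomorphism and a weak equivalence (2 out of 3), so it has
the property `TC`, which is stable under pushouts; so `nerve (Els T₂) ⟶ nerve (Els P)` is a weak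
equivalence. -/
def AsphPush : Prop :=
  ∀ {A : Type u} [SmallCategory A] {T₀ T₁ T₂ P : Aᵒᵖ ⥤ Type u} (f : T₀ ⟶ T₁) (g : T₀ ⟶ T₂)
    (g' : T₁ ⟶ P) (f' : T₂ ⟶ P) [Mono f], IsPushout f g g' f' →
    Asph T₀ → Asph T₁ → Asph T₂ → Asph P

/-- **AsphJ** (hypothesis `NerveB`). Proof. Write objects of `Els (Pr T (JP T₀))` as
`((d, m), t, s)`. Let `K ((d, m), t, s) = ((d, m + 1), T (pr) t, s⁺)`, `pr : El (m+1) → El m` the
first projection, `s⁺ b θ = s b (θ ≫ pr)` if `(θ.2 x).2 = false` for all `x : El b.2.n`, and `none`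
otherwise; on morphisms `K φ = (φ.1, fun y => (φ.2 y.1, y.2))`. There are natural transformations
`𝟭 ⟶ K` given by `x ↦ (x, false)` and `pr' ⋙ sec ⟶ K` given by `x ↦ (x, true)` (`El n` is not
empty), where `pr' = elsMap (prFst _ _)` and `sec : Els T ⥤ Els (Pr T (JP T₀))`,
`(a, t) ↦ (a, t, none)`, and `sec ⋙ pr' = 𝟭`. So `nerveMap pr'` is a weak equivalence
(`NerveB` (1), (3)). -/
def AsphJ : Prop :=
  ∀ {D : Type u} [SmallCategory D] (T₀ : (D × Th)ᵒᵖ ⥤ Type u), Good (JP T₀)

/-- **Bds** (no hypotheses). Cardinal bounds: representable presheaves, `Pr`, `JP`, pushouts.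
Proof: cardinal arithmetic; `κ = ℵ₀ + |arrows|`, `bd A = 2 ^ κ ≥ ℵ₀`; `|JP T a| ≤ (2^κ + 1)^κ =
2^κ`; elements of a pushout come from one of the two presheaves. -/
def Bds : Prop :=
  (∀ {A : Type u} [SmallCategory A] (a : A), Bd (yoneda.obj a)) ∧
  (∀ {A : Type u} [SmallCategory A] (T J : Aᵒᵖ ⥤ Type u), Bd T → Bd J → Bd (Pr T J)) ∧
  (∀ {A : Type u} [SmallCategory A] (T : Aᵒᵖ ⥤ Type u), Bd T → Bd (JP T)) ∧
  (∀ {A : Type u} [SmallCategory A] {T₀ T₁ T₂ P : Aᵒᵖ ⥤ Type u} (f : T₀ ⟶ T₁) (g : T₀ ⟶ T₂)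
    (g' : T₁ ⟶ P) (f' : T₂ ⟶ P), IsPushout f g g' f' → Bd T₁ → Bd T₂ → Bd P)

/-- **CFM** (hypotheses `AsphPush`, `AsphIso`, `Bds`). The structure `(C, F)` on the full subcategory
of the bounded aspherical presheaves on `A`, provided that all `JP T₀` are good. Proof. `C f` = `f`
is a monomorphism of presheaves; `F f` for `f : Z ⟶ T` = there are `J`, `Good J`, `Bd J` and an
isomorphism `i : Z ≅ Pr T J` of presheaves with `i.hom ≫ prFst T J = f`. Pushouts: form the pushout
of presheaves (`AsphPush`, `Bds`); it is a pushout in the full subcategory (fully faithful functors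
reflect colimits), monomorphisms of presheaves are stable under pushouts; every pushout in the full
subcategory is isomorphic to this one. Pullbacks: `Pr T' J` with the obvious maps is the pullback of
`Pr T J ⟶ T` along `T' ⟶ T` in presheaves. Factorization of `g : X ⟶ Y`: `Z g = Pr Y (JP X)`,
`X ⟶ Z g`, `x ↦ (g x, fun b θ => some (X θ x))` (a monomorphism: take `θ = 𝟙`), and
`prFst : Z g ⟶ Y`. `JP` is functorial: `fun s b θ => (s b θ).map (φ.app _)`. -/
def CFM : Prop :=
  ∀ {A : Type u} [SmallCategory A], (∀ T₀ : Aᵒᵖ ⥤ Type u, Good (JP T₀)) →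
    Nonempty (CF (PB A).FullSubcategory)

/-- **EssS** (no hypotheses). The bounded presheaves form an essentially small category. Proof:
`essentiallySmall_iff`; homs are in `Type u`; every bounded presheaf is isomorphic to one given by
subsets of a fixed set `Ω : Type u` with `|Ω| = bd A` (`Quotient.out` of the cardinal) and maps
between them; these data form a type in `Type u` which surjects to the skeleton. -/
def EssS : Prop :=
  ∀ {A : Type u} [SmallCategory A], EssentiallySmall.{u} (PB A).FullSubcategory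

/-- **CFTr** (no hypotheses). Transport of the structure `(C, F)` along an equivalence. Proof:
`C' f = C (e.inverse.map f)` etc.; first replace `C`, `F` by their closures under isomorphisms of
arrows (or show directly: `C' f` iff there is `g` in `C` with `Arrow.mk f ≅ Arrow.mk (e.functor.map
g)`). Pushouts exist because equivalences preserve and reflect them; the factorization of `f'` is
the image of the factorization of `e.inverse.map f'`, composed with the unit/counit
isomorphisms. -/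
def CFTr : Prop :=
  ∀ {M : Type w} [Category.{u} M] {M' : Type u} [Category.{u} M'] (_ : M ≌ M'),
    Nonempty (CF M) → Nonempty (CF M')

/-- **CFPM** (no hypotheses). A category with a structure `(C, F)` is a partial model category with
`W = ⊤`, and the category of weak equivalences is equivalent to the category itself. -/
def CFPM : Prop :=
  ∀ {M : Type u} [SmallCategory M], Nonempty (CF M) →
    ∃ P : PartialModel M, Nonempty (M ≌ P.Weak)

/-- **CostEls** (hypothesis `NerveB`). Let `R : M ⥤ (Aᵒᵖ ⥤ Type u)` be fully faithful and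
`v : A ⥤ M` with `v ⋙ R ≅ yoneda`. Then the comma category `v / X` is equivalent to `Els (R X)`:
a morphism `v a ⟶ X` is the same as a morphism `yoneda a ⟶ R X`, i.e. an element of `R X (a)`. So
its nerve is weakly contractible if `R X` is aspherical (`NerveB` (1), (3)). -/
def CostEls : Prop :=
  ∀ {A M : Type u} [SmallCategory A] [SmallCategory M] (R : M ⥤ (Aᵒᵖ ⥤ Type u)) [R.Full]
    [R.Faithful] (v : A ⥤ M) (_ : v ⋙ R ≅ yoneda) (X : M), Asph (R.obj X) →
    WCtr (nerve (CostructuredArrow v X))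

/-- **Asm** (all modules): the assembly. Owner: helper50. Let `A = D × Th`,
`𝓜 = (PB A).FullSubcategory`, `M = SmallModel 𝓜`, `P` from `CFM`, `CFTr`, `CFPM`,
`v : A ⥤ M` the Yoneda embedding, `D ⥤ A`, `d ↦ (d, 0)`. -/
def Asm : Prop := Main.{u}

end Pool.Agent.PMC
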