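import Pool.Agent.Lib.MP_64c6ca_gt.Spec

/-!
# MP_64c6ca_gt, module AsphJ
-/

set_option autoImplicit false

open CategoryTheory MonoidalCategory CartesianMonoidalCategory Simplicial HomotopicalAlgebra Limits
  Opposite

universe w v u

namespace Pool.Agent.PMC

open SSet SSet.modelCategoryQuillen

section
variable {D : Type u} [SmallCategory D]

/-- `El m` is not empty -/
theorem AsphJ_ne (n : ℕ) : Nonempty (El n) := by
  induction n with
  | zero => exact ⟨PUnit.unit⟩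
  | succ n ih => exact ih.elim fun x => ⟨(x, true)⟩

/-- one more coordinate -/
def AsphJ_up (a : D × Th) : D × Th := (a.1, ⟨a.2.n + 1⟩)

/-- forget the last coordinate -/
def AsphJ_pr (a : D × Th) : AsphJ_up a ⟶ a := (𝟙 a.1, fun z : El a.2.n × Bool => z.1)

/-- the sections of `AsphJ_pr` -/
def AsphJ_sc (a : D × Th) (ε : Bool) : a ⟶ AsphJ_up a :=
  (𝟙 a.1, fun z : El a.2.n => ((z, ε) : El a.2.n × Bool))

/-- functoriality of `AsphJ_up` -/
def AsphJ_upm {a b : D × Th} (f : a ⟶ b) : AsphJ_up a ⟶ AsphJ_up b :=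
  (f.1, fun z : El a.2.n × Bool => ((f.2 z.1, z.2) : El b.2.n × Bool))

/-- the last coordinate -/
def AsphJ_last {b a : D × Th} (θ : b ⟶ AsphJ_up a) (x : El b.2.n) : Bool :=
  (show El a.2.n × Bool from θ.2 x).2

theorem AsphJ_sc_pr (a : D × Th) (ε : Bool) : AsphJ_sc a ε ≫ AsphJ_pr a = 𝟙 a := by
  apply CategoryTheory.Prod.hom_ext
  · exact Category.id_comp _
  · rfl

theorem AsphJ_upm_pr {a b : D × Th} (f : a ⟶ b) :
    AsphJ_upm f ≫ AsphJ_pr b = AsphJ_pr a ≫ f := by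
  apply CategoryTheory.Prod.hom_ext
  · exact (Category.comp_id _).trans (Category.id_comp _).symm
  · rfl

theorem AsphJ_sc_upm {a b : D × Th} (f : a ⟶ b) (ε : Bool) :
    f ≫ AsphJ_sc b ε = AsphJ_sc a ε ≫ AsphJ_upm f := by
  apply CategoryTheory.Prod.hom_ext
  · exact (Category.comp_id _).trans (Category.id_comp _).symm
  · rfl

theorem AsphJ_upm_id (a : D × Th) : AsphJ_upm (𝟙 a) = 𝟙 (AsphJ_up a) := rfl

theorem AsphJ_upm_comp {a b c : D × Th} (f : a ⟶ b) (g : b ⟶ c) :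
    AsphJ_upm (f ≫ g) = AsphJ_upm f ≫ AsphJ_upm g := rfl

theorem AsphJ_last_upm {b a c : D × Th} (θ : b ⟶ AsphJ_up a) (f : a ⟶ c) (x : El b.2.n) :
    AsphJ_last (θ ≫ AsphJ_upm f) x = AsphJ_last θ x := rfl

theorem AsphJ_last_sc {b a : D × Th} (θ : b ⟶ a) (ε : Bool) (x : El b.2.n) :
    AsphJ_last (θ ≫ AsphJ_sc a ε) x = ε := rfl

variable {T₀ T : (D × Th)ᵒᵖ ⥤ Type u}

open Classical in
/-- the element `s⁺` -/
noncomputable def AsphJ_sp (a : D × Th) (s : (JP T₀).obj (op a)) :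
    (JP T₀).obj (op (AsphJ_up a)) :=
  fun b θ => if ∀ x : El b.2.n, AsphJ_last θ x = false then s b (θ ≫ AsphJ_pr a) else none

open Classical in
theorem AsphJ_sp_upm {a c : D × Th} (f : a ⟶ c) (s : (JP T₀).obj (op c)) :
    (JP T₀).map (AsphJ_upm f).op (AsphJ_sp c s) = AsphJ_sp a ((JP T₀).map f.op s) := by
  funext b θ
  show (if ∀ x : El b.2.n, AsphJ_last (θ ≫ AsphJ_upm f) x = false then
      s b ((θ ≫ AsphJ_upm f) ≫ AsphJ_pr c) else none) =
    (if ∀ x : El b.2.n, AsphJ_last θ x = false then s b ((θ ≫ AsphJ_pr a) ≫ f) else none)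
  simp only [AsphJ_last_upm]
  rw [Category.assoc, AsphJ_upm_pr, ← Category.assoc]

open Classical in
theorem AsphJ_sp_sc_false (a : D × Th) (s : (JP T₀).obj (op a)) :
    (JP T₀).map (AsphJ_sc a false).op (AsphJ_sp a s) = s := by
  funext b θ
  show (if ∀ x : El b.2.n, AsphJ_last (θ ≫ AsphJ_sc a false) x = false then
      s b ((θ ≫ AsphJ_sc a false) ≫ AsphJ_pr a) else none) = s b θ
  rw [if_pos (fun x => AsphJ_last_sc θ false x), Category.assoc, AsphJ_sc_pr, Category.comp_id]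

open Classical in
theorem AsphJ_sp_sc_true (a : D × Th) (s : (JP T₀).obj (op a)) :
    (JP T₀).map (AsphJ_sc a true).op (AsphJ_sp a s) = fun _ _ => none := by
  funext b θ
  show (if ∀ x : El b.2.n, AsphJ_last (θ ≫ AsphJ_sc a true) x = false then
      s b ((θ ≫ AsphJ_sc a true) ≫ AsphJ_pr a) else none) = none
  rw [if_neg]
  intro h
  obtain ⟨x⟩ := AsphJ_ne b.2.n
  have := h x
  rw [AsphJ_last_sc] at this
  exact Bool.noConfusion this

theorem AsphJ_map_map (F : (D × Th)ᵒᵖ ⥤ Type u) {a b c : D × Th} (f : a ⟶ b) (g : b ⟶ c)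
    (t : F.obj (op c)) : F.map f.op (F.map g.op t) = F.map (f ≫ g).op t := by
  rw [op_comp, Functor.map_comp_apply]

variable (T₀ T)

/-- the functor `K` -/
noncomputable def AsphJ_K : Els (Pr T (JP T₀)) ⥤ Els (Pr T (JP T₀)) where
  obj x := ⟨AsphJ_up x.a, (T.map (AsphJ_pr x.a).op x.t.1, AsphJ_sp x.a x.t.2)⟩
  map {x y} φ := ⟨AsphJ_upm φ.1, by
    have h := φ.2
    have h1 : T.map φ.1.op y.t.1 = x.t.1 := congrArg Prod.fst h
    have h2 : (JP T₀).map φ.1.op y.t.2 = x.t.2 := congrArg Prod.snd h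
    refine Prod.ext ?_ ?_
    · show T.map (AsphJ_upm φ.1).op (T.map (AsphJ_pr y.a).op y.t.1) =
        T.map (AsphJ_pr x.a).op x.t.1
      rw [← h1, AsphJ_map_map, AsphJ_map_map, AsphJ_upm_pr]
    · show (JP T₀).map (AsphJ_upm φ.1).op (AsphJ_sp y.a y.t.2) = AsphJ_sp x.a x.t.2
      rw [← h2, AsphJ_sp_upm]⟩
  map_id x := Subtype.ext (AsphJ_upm_id x.a)
  map_comp φ ψ := Subtype.ext (AsphJ_upm_comp φ.1 ψ.1)

/-- the section -/
def AsphJ_G : Els T ⥤ Els (Pr T (JP T₀)) where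
  obj x := ⟨x.a, (x.t, fun _ _ => none)⟩
  map {x y} φ := ⟨φ.1, Prod.ext φ.2 rfl⟩
  map_id _ := rfl
  map_comp _ _ := rfl

/-- the transformation from the identity to `K` -/
noncomputable def AsphJ_α : 𝟭 (Els (Pr T (JP T₀))) ⟶ AsphJ_K T₀ T where
  app x := ⟨AsphJ_sc x.a false, by
    refine Prod.ext ?_ ?_
    · show T.map (AsphJ_sc x.a false).op (T.map (AsphJ_pr x.a).op x.t.1) = x.t.1
      rw [AsphJ_map_map, AsphJ_sc_pr, op_id, Functor.map_id_apply]
    · exact AsphJ_sp_sc_false x.a x.t.2⟩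
  naturality x y φ := Subtype.ext (AsphJ_sc_upm φ.1 false)

/-- the transformation from the composition of the projection and the section to `K` -/
noncomputable def AsphJ_β :
    elsMap (prFst T (JP T₀)) ⋙ AsphJ_G T₀ T ⟶ AsphJ_K T₀ T where
  app x := ⟨AsphJ_sc x.a true, by
    refine Prod.ext ?_ ?_
    · show T.map (AsphJ_sc x.a true).op (T.map (AsphJ_pr x.a).op x.t.1) = x.t.1
      rw [AsphJ_map_map, AsphJ_sc_pr, op_id, Functor.map_id_apply]
    · exact AsphJ_sp_sc_true x.a x.t.2⟩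
  naturality x y φ := Subtype.ext (AsphJ_sc_upm φ.1 true)

/-- the section is a section -/
def AsphJ_γ : AsphJ_G T₀ T ⋙ elsMap (prFst T (JP T₀)) ⟶ 𝟭 (Els T) where
  app x := 𝟙 x
  naturality x y φ := (Category.comp_id _).trans (Category.id_comp _).symm

end

theorem s_AsphJ (h1 : NerveB.{u}) : AsphJ.{u} := by
  intro D _ T₀ T hT
  have hW : WEq (nerveMap (elsMap (prFst T (JP T₀)))) := by
    refine h1.1 (elsMap (prFst T (JP T₀))) (AsphJ_G T₀ T) ?_ ?_
    · exact Relation.EqvGen.trans _ _ _ (Relation.EqvGen.rel _ _ ⟨AsphJ_β T₀ T⟩)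
        (Relation.EqvGen.symm _ _ (Relation.EqvGen.rel _ _ ⟨AsphJ_α T₀ T⟩))
    · exact Relation.EqvGen.rel _ _ ⟨AsphJ_γ T₀ T⟩
  exact (h1.2.2 (elsMap (prFst T (JP T₀))) hW).2 hT

end Pool.Agent.PMC
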