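import Pool.Agent.Lib.MP_64c6ca_gt.Spec

/-!
# MP_64c6ca_gt: module AsphPush
-/

set_option autoImplicit false

open CategoryTheory MonoidalCategory CartesianMonoidalCategory Simplicial HomotopicalAlgebra Limits
  Opposite

universe w v u

namespace Pool.Agent.PMC

open SSet SSet.modelCategoryQuillen

theorem AsphPush_comp {X Y : SSet.{u}} (f : X ⟶ Y) : f ≫ toUnit Y = toUnit X :=
  toUnit_unique _ _

theorem s_AsphPush (h1 : WEqB.{u}) (h2 : TCofWEq.{u}) (h3 : WEqofTC.{u}) (h4 : NervePush.{u}) :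
    AsphPush.{u} := by
  intro A _ T₀ T₁ T₂ P f g g' f' _ hP a0 a1 a2
  obtain ⟨hm, hpush⟩ := h4 f g g' f' hP
  have h23 : ∀ {X Y Z : SSet.{u}} (f : X ⟶ Y) (g : Y ⟶ Z), WEq g → WEq (f ≫ g) → WEq f :=
    h1.2.2.2.1
  have hw : WEq (nerveMap (elsMap f)) := by
    refine h23 _ (toUnit _) a1 ?_
    rw [AsphPush_comp]
    exact a0
  have htc : TC (nerveMap (elsMap f)) := h2 _ hw
  have htc' : TC (nerveMap (elsMap f')) := by
    intro K L p _ _
    have := htc p
    exact hpush.flip.hasLiftingProperty p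
  have hw' : WEq (nerveMap (elsMap f')) := h3 _ htc'
  have h23' := h1.2.2.1 (nerveMap (elsMap f')) (toUnit (nerve (Els P))) hw'
  apply h23'
  rw [AsphPush_comp]
  exact a2

end Pool.Agent.PMC
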