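import Pool.Agent.Lib.MP_64c6ca_gt.Spec

/-!
# MP_64c6ca_gt: representable presheaves are aspherical, asphericity is invariant under isomorphism
-/

set_option autoImplicit false

open CategoryTheory MonoidalCategory CartesianMonoidalCategory Simplicial HomotopicalAlgebra Limits
  Opposite

universe w v u

namespace Pool.Agent.PMC

open SSet SSet.modelCategoryQuillen

theorem s_AsphYo (h1 : NerveB.{u}) : AsphYo.{u} := by
  intro A _ a
  refine h1.2.1 (C := Els (yoneda.obj a)) ⟨a, 𝟙 a⟩ ⟨?_⟩
  refine IsTerminal.ofUniqueHom (fun X => ⟨X.t, ?_⟩) ?_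
  · simp
  · intro X m
    apply Subtype.ext
    have h := m.2
    simp only [yoneda_obj_map, Quiver.Hom.unop_op] at h
    exact (Category.comp_id _).symm.trans h

theorem s_AsphIso (h1 : NerveB.{u}) : AsphIso.{u} := by
  intro A _ T T' i hT
  have key : ∀ {S S' : Aᵒᵖ ⥤ Type u} (j : S ≅ S'),
      Nonempty ((elsMap j.hom ⋙ elsMap j.inv) ⟶ 𝟭 (Els S)) := by
    intro S S' j
    refine ⟨⟨fun x => ⟨𝟙 x.a, ?_⟩, ?_⟩⟩
    · have : j.inv.app (op x.a) (j.hom.app (op x.a) x.t) = x.t := by
        rw [← NatTrans.comp_app_apply, j.hom_inv_id]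
        simp
      change S.map (𝟙 x.a).op x.t = j.inv.app (op x.a) (j.hom.app (op x.a) x.t)
      rw [this, op_id, S.map_id]
      rfl
    · intro x y f
      apply Subtype.ext
      exact (Category.comp_id _).trans (Category.id_comp _).symm
  have hw : WEq (nerveMap (elsMap i.hom)) := by
    refine h1.1 (elsMap i.hom) (elsMap i.inv) (Relation.EqvGen.rel _ _ (key i)) ?_
    exact Relation.EqvGen.rel _ _ (key i.symm)
  exact (h1.2.2 _ hw).1 hT

end Pool.Agent.PMC
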