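import Pool.Agent.Lib.MP_64c6ca_gt.Spec

/-!
# MP_64c6ca_gt, module Bds: cardinal bounds
-/

set_option autoImplicit false
set_option linter.unusedVariables false

open CategoryTheory MonoidalCategory CartesianMonoidalCategory Simplicial HomotopicalAlgebra Limits
  Opposite

universe w v u

namespace Pool.Agent.PMC

open SSet SSet.modelCategoryQuillen

section
variable (A : Type u) [SmallCategory A]

theorem Bds_aleph0_le_kap : Cardinal.aleph0 ≤
    Cardinal.aleph0 + Cardinal.mk (Σ a : A, Σ b : A, (a ⟶ b)) := le_self_add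

theorem Bds_kap_le : Cardinal.aleph0 + Cardinal.mk (Σ a : A, Σ b : A, (a ⟶ b)) ≤ bd A :=
  (Cardinal.cantor _).le

theorem Bds_aleph0_le : Cardinal.aleph0 ≤ bd A :=
  (Bds_aleph0_le_kap A).trans (Bds_kap_le A)

theorem Bds_arrows_le : Cardinal.mk (Σ a : A, Σ b : A, (a ⟶ b)) ≤ bd A :=
  le_add_self.trans (Bds_kap_le A)

end

theorem Bds_yo {A : Type u} [SmallCategory A] (a : A) : Bd (yoneda.obj a) := by
  intro b
  refine le_trans ?_ (Bds_arrows_le A)
  let φ : (b.unop ⟶ a) → (Σ a : A, Σ b : A, (a ⟶ b)) := fun f => ⟨b.unop, a, f⟩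
  have hφ : Function.Injective φ := by
    intro f g h
    simpa [φ] using h
  exact Cardinal.mk_le_of_injective hφ

theorem Bds_pr {A : Type u} [SmallCategory A] (T J : Aᵒᵖ ⥤ Type u) (hT : Bd T) (hJ : Bd J) :
    Bd (Pr T J) := by
  intro a
  have h1 : Cardinal.mk (T.obj a × J.obj a) = Cardinal.mk (T.obj a) * Cardinal.mk (J.obj a) := by
    simp
  show Cardinal.mk (T.obj a × J.obj a) ≤ bd A
  rw [h1]
  calc Cardinal.mk (T.obj a) * Cardinal.mk (J.obj a) ≤ bd A * bd A := mul_le_mul' (hT a) (hJ a)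
    _ = bd A := Cardinal.mul_eq_self (Bds_aleph0_le A)

theorem Bds_jp {A : Type u} [SmallCategory A] (T : Aᵒᵖ ⥤ Type u) (hT : Bd T) : Bd (JP T) := by
  intro a
  have hO : ∀ b : A, Cardinal.mk (Option (T.obj (op b))) ≤ Cardinal.mk (bd A).out := by
    intro b
    rw [Cardinal.mk_option, Cardinal.mk_out]
    exact Cardinal.add_le_of_le (Bds_aleph0_le A) (hT (op b))
      (Cardinal.one_le_aleph0.trans (Bds_aleph0_le A))
  have hE : ∀ b : A, Nonempty (Option (T.obj (op b)) ↪ (bd A).out) := fun b => hO b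
  let e : ∀ b : A, Option (T.obj (op b)) ↪ (bd A).out := fun b => (hE b).some
  let Φ : (∀ b : A, (b ⟶ a.unop) → Option (T.obj (op b))) →
      ((Σ b : A, (b ⟶ a.unop)) → (bd A).out) := fun s q => e q.1 (s q.1 q.2)
  have hΦ : Function.Injective Φ := by
    intro s s' h
    funext b θ
    have h2 := congrFun h ⟨b, θ⟩
    exact (e b).injective h2
  have h1 : Cardinal.mk (∀ b : A, (b ⟶ a.unop) → Option (T.obj (op b)))
      ≤ Cardinal.mk ((Σ b : A, (b ⟶ a.unop)) → (bd A).out) := Cardinal.mk_le_of_injective hΦ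
  have h2 : Cardinal.mk ((Σ b : A, (b ⟶ a.unop)) → (bd A).out)
      = bd A ^ Cardinal.mk (Σ b : A, (b ⟶ a.unop)) := by
    rw [← Cardinal.power_def, Cardinal.mk_out]
  let κ : Cardinal.{u} := Cardinal.aleph0 + Cardinal.mk (Σ a : A, Σ b : A, (a ⟶ b))
  have h3 : Cardinal.mk (Σ b : A, (b ⟶ a.unop)) ≤ κ := by
    let ψ : (Σ b : A, (b ⟶ a.unop)) → (Σ a : A, Σ b : A, (a ⟶ b)) := fun q => ⟨q.1, a.unop, q.2⟩
    have hψ : Function.Injective ψ := by
      rintro ⟨b, f⟩ ⟨b', f'⟩ h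
      have h4 : b = b' := congrArg (fun q : (Σ a : A, Σ b : A, (a ⟶ b)) => q.1) h
      subst h4
      have h5 : f = f' := by simpa [ψ] using h
      rw [h5]
    exact (Cardinal.mk_le_of_injective hψ).trans le_add_self
  have h4 : bd A ^ Cardinal.mk (Σ b : A, (b ⟶ a.unop)) ≤ bd A := by
    have hne : bd A ≠ 0 := by
      have := Bds_aleph0_le A
      intro h0
      rw [h0] at this
      exact absurd (Cardinal.aleph0_pos) (not_lt.2 this)
    calc bd A ^ Cardinal.mk (Σ b : A, (b ⟶ a.unop)) ≤ bd A ^ κ :=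
          Cardinal.power_le_power_left hne h3
      _ = (2 ^ κ) ^ κ := rfl
      _ = 2 ^ (κ * κ) := (Cardinal.power_mul).symm
      _ = 2 ^ κ := by rw [Cardinal.mul_eq_self (Bds_aleph0_le_kap A)]
      _ = bd A := rfl
  show Cardinal.mk (∀ b : A, (b ⟶ a.unop) → Option (T.obj (op b))) ≤ bd A
  exact h1.trans (h2.le.trans h4)

theorem Bds_push {A : Type u} [SmallCategory A] {T₀ T₁ T₂ P : Aᵒᵖ ⥤ Type u} (f : T₀ ⟶ T₁)
    (g : T₀ ⟶ T₂) (g' : T₁ ⟶ P) (f' : T₂ ⟶ P) (h : IsPushout f g g' f') (h1 : Bd T₁)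
    (h2 : Bd T₂) : Bd P := by
  intro a
  have hp : IsPushout (f.app a) (g.app a) (g'.app a) (f'.app a) :=
    h.map ((evaluation Aᵒᵖ (Type u)).obj a)
  let Φ : T₁.obj a ⊕ T₂.obj a → P.obj a := Sum.elim (fun x => g'.app a x) (fun x => f'.app a x)
  have hs : Function.Surjective Φ := by
    intro x
    rcases Types.eq_or_eq_of_isPushout hp x with ⟨y, hy⟩ | ⟨y, hy⟩
    · exact ⟨Sum.inl y, hy⟩
    · exact ⟨Sum.inr y, hy⟩
  have h3 : Cardinal.mk (P.obj a) ≤ Cardinal.mk (T₁.obj a ⊕ T₂.obj a) :=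
    Cardinal.mk_le_of_surjective hs
  refine h3.trans ?_
  have h4 : Cardinal.mk (T₁.obj a ⊕ T₂.obj a) = Cardinal.mk (T₁.obj a) + Cardinal.mk (T₂.obj a) := by
    simp
  rw [h4]
  exact Cardinal.add_le_of_le (Bds_aleph0_le A) (h1 a) (h2 a)

theorem s_Bds : Bds.{u} :=
  ⟨fun a => Bds_yo a, fun T J hT hJ => Bds_pr T J hT hJ, fun T hT => Bds_jp T hT,
    fun f g g' f' h h1 h2 => Bds_push f g g' f' h h1 h2⟩

end Pool.Agent.PMC
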