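import Pool.Agent.Lib.MP_64c6ca_gt.Spec

/-!
# MP_64c6ca_gt: module CFM
-/

set_option autoImplicit false
set_option linter.unusedVariables false

open CategoryTheory MonoidalCategory CartesianMonoidalCategory Simplicial HomotopicalAlgebra Limits
  Opposite

universe w v u

namespace Pool.Agent.PMC

open SSet SSet.modelCategoryQuillen

section
variable {A : Type u} [SmallCategory A]

/-- The second projection. -/
def CFM_snd (T J : Aᵒᵖ ⥤ Type u) : Pr T J ⟶ J where
  app _ := ↾fun x => x.2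
  naturality _ _ _ := rfl

/-- Pairing. -/
def CFM_pair {W T J : Aᵒᵖ ⥤ Type u} (p : W ⟶ T) (q : W ⟶ J) : W ⟶ Pr T J where
  app a := ↾fun x => (p.app a x, q.app a x)
  naturality a b f := by
    ext x
    exact Prod.ext (congrArg (fun h => (ConcreteCategory.hom h : _ → _) x) (p.naturality f))
      (congrArg (fun h => (ConcreteCategory.hom h : _ → _) x) (q.naturality f))

@[simp] theorem CFM_pair_fst {W T J : Aᵒᵖ ⥤ Type u} (p : W ⟶ T) (q : W ⟶ J) :
    CFM_pair p q ≫ prFst T J = p := rfl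

@[simp] theorem CFM_pair_snd {W T J : Aᵒᵖ ⥤ Type u} (p : W ⟶ T) (q : W ⟶ J) :
    CFM_pair p q ≫ CFM_snd T J = q := rfl

theorem CFM_ext {W T J : Aᵒᵖ ⥤ Type u} {p q : W ⟶ Pr T J} (h1 : p ≫ prFst T J = q ≫ prFst T J)
    (h2 : p ≫ CFM_snd T J = q ≫ CFM_snd T J) : p = q := by
  ext a x
  exact Prod.ext (congrArg (fun h => (ConcreteCategory.hom (NatTrans.app h a) : _ → _) x) h1)
    (congrArg (fun h => (ConcreteCategory.hom (NatTrans.app h a) : _ → _) x) h2)

/-- Functoriality of products. -/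
def CFM_pm {T T' J J' : Aᵒᵖ ⥤ Type u} (g : T ⟶ T') (h : J ⟶ J') : Pr T J ⟶ Pr T' J' :=
  CFM_pair (prFst T J ≫ g) (CFM_snd T J ≫ h)

theorem CFM_isPullback {Y Z : Aᵒᵖ ⥤ Type u} (g : Y ⟶ Z) (J : Aᵒᵖ ⥤ Type u) :
    IsPullback (CFM_pm g (𝟙 J)) (prFst Y J) (prFst Z J) g := by
  refine ⟨⟨rfl⟩, ⟨PullbackCone.IsLimit.mk _ (fun s => CFM_pair s.snd (s.fst ≫ CFM_snd _ _))
    ?_ ?_ ?_⟩⟩
  · intro s
    refine CFM_ext ?_ rfl
    exact s.condition.symm
  · intro s
    rfl
  · intro s m h1 h2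
    refine CFM_ext h2 ?_
    rw [CFM_pair_snd, ← h1]
    rfl

/-- Functoriality of `JP`. -/
def CFM_jm {T T' : Aᵒᵖ ⥤ Type u} (g : T ⟶ T') : JP T ⟶ JP T' where
  app a := ↾fun s b θ => (s b θ).map (g.app (op b))
  naturality a b f := rfl

/-- The unit. -/
def CFM_un (T : Aᵒᵖ ⥤ Type u) : T ⟶ JP T where
  app a := ↾fun x b θ => some (T.map θ.op x)
  naturality a b f := by
    ext x
    funext c θ
    simp [JP]

/-- The class of acyclic cofibrations. -/
def CFM_C (A : Type u) [SmallCategory A] : MorphismProperty (PB A).FullSubcategory :=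
  fun _ _ f => Mono f.hom

/-- The class of acyclic fibrations. -/
def CFM_F (A : Type u) [SmallCategory A] : MorphismProperty (PB A).FullSubcategory :=
  fun X Y f => ∃ J : Aᵒᵖ ⥤ Type u, Good J ∧ Bd J ∧ ∃ i : X.obj ≅ Pr Y.obj J,
    i.hom ≫ prFst Y.obj J = f.hom

theorem CFM_pushEx (h1 : AsphPush.{u}) (h3 : Bds.{u}) {X Y Z : (PB A).FullSubcategory}
    (f : X ⟶ Y) (g : X ⟶ Z) (hf : CFM_C A f) :
    ∃ (W : (PB A).FullSubcategory) (a : Y ⟶ W) (b : Z ⟶ W), IsPushout f g a b ∧ CFM_C A b := by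
  have hm : Mono f.hom := hf
  have hp : IsPushout f.hom g.hom (pushout.inl f.hom g.hom) (pushout.inr f.hom g.hom) :=
    IsPushout.of_hasPushout _ _
  refine ⟨⟨pushout f.hom g.hom, h1 _ _ _ _ hp X.property.1 Y.property.1 Z.property.1,
    h3.2.2.2 _ _ _ _ hp Y.property.2 Z.property.2⟩, ObjectProperty.homMk (pushout.inl f.hom g.hom),
    ObjectProperty.homMk (pushout.inr f.hom g.hom), ?_, ?_⟩
  · exact IsPushout.of_map_of_faithful (PB A).ι hp
  · exact Adhesive.mono_of_isPushout_of_mono_left hp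

theorem CFM_pullEx (h3 : Bds.{u}) {X Y Z : (PB A).FullSubcategory}
    (f : X ⟶ Z) (g : Y ⟶ Z) (hf : CFM_F A f) :
    ∃ (W : (PB A).FullSubcategory) (a : W ⟶ X) (b : W ⟶ Y), IsPullback a b f g ∧ CFM_F A b := by
  obtain ⟨J, hJ, hB, i, hi⟩ := hf
  refine ⟨⟨Pr Y.obj J, hJ _ Y.property.1, h3.2.1 _ _ Y.property.2 hB⟩,
    ObjectProperty.homMk (CFM_pm g.hom (𝟙 J) ≫ i.inv), ObjectProperty.homMk (prFst Y.obj J), ?_, ?_⟩
  · refine IsPullback.of_map_of_faithful (PB A).ι ?_
    change IsPullback (CFM_pm g.hom (𝟙 J) ≫ i.inv) (prFst Y.obj J) f.hom g.hom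
    refine IsPullback.of_iso (CFM_isPullback g.hom J) (Iso.refl _) i.symm (Iso.refl _) (Iso.refl _)
      (by simp) (by simp) ?_ (by simp)
    rw [← hi]
    simp
  · exact ⟨J, hJ, hB, Iso.refl _, by simp⟩

/-- The factorization. -/
theorem CFM_fact (h3 : Bds.{u}) (hG : ∀ T₀ : Aᵒᵖ ⥤ Type u, Good (JP T₀)) :
    Nonempty (MorphismProperty.FunctorialFactorizationData (CFM_C A) (CFM_F A)) := by
  refine ⟨{
    Z := {
      obj := fun g => ⟨Pr g.right.obj (JP g.left.obj), hG _ _ g.right.property.1,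
        h3.2.1 _ _ g.right.property.2 (h3.2.2.1 _ g.left.property.2)⟩
      map := fun {g g'} φ => ObjectProperty.homMk (CFM_pm φ.right.hom (CFM_jm φ.left.hom))
      map_id := ?_
      map_comp := ?_ }
    i := {
      app := fun g => ObjectProperty.homMk (CFM_pair g.hom.hom (CFM_un g.left.obj))
      naturality := ?_ }
    p := {
      app := fun g => ObjectProperty.homMk (prFst g.right.obj (JP g.left.obj))
      naturality := ?_ }
    fac := ?_
    hi := ?_
    hp := ?_ }⟩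
  · intro g
    ext1
    refine CFM_ext rfl ?_
    ext a x
    funext b θ
    change Option.map _ (x.2 b θ) = x.2 b θ
    cases x.2 b θ <;> rfl
  · intro g g' g'' φ ψ
    ext1
    refine CFM_ext rfl ?_
    ext a x
    funext b θ
    change Option.map _ (x.2 b θ) = Option.map _ (Option.map _ (x.2 b θ))
    cases x.2 b θ <;> rfl
  · intro g g' φ
    ext1
    refine CFM_ext ?_ ?_
    · exact congrArg (fun h => h.hom) (Arrow.w φ)
    · ext a x
      funext b θ
      change some _ = Option.map _ (some _)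
      rw [Option.map_some]
      congr 1
      exact (congrArg (fun h => (ConcreteCategory.hom h : _ → _) x) (φ.left.hom.naturality θ.op)).symm
  · intro g g' φ
    rfl
  · ext g
    rfl
  · intro g
    change Mono (CFM_pair g.hom.hom (CFM_un g.left.obj))
    rw [NatTrans.mono_iff_mono_app]
    intro a
    rw [mono_iff_injective]
    intro x y hxy
    have h := congrFun (congrFun (congrArg Prod.snd hxy) a.unop) (𝟙 _)
    have h' := Option.some_injective _ h
    simpa using h'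
  · intro g
    exact ⟨JP g.left.obj, hG _, h3.2.2.1 _ g.left.property.2, Iso.refl _, Category.id_comp _⟩

end

theorem s_CFM (h1 : AsphPush.{u}) (h2 : AsphIso.{u}) (h3 : Bds.{u}) : CFM.{u} := by
  intro A _ hG
  refine ⟨{
    C := CFM_C A
    F := CFM_F A
    push := ?_
    push_mem := ?_
    pull := ?_
    pull_mem := ?_
    fact := CFM_fact h3 hG }⟩
  · intro X Y Z f g hf
    obtain ⟨W, a, b, h, _⟩ := CFM_pushEx h1 h3 f g hf
    exact h.hasPushout
  · intro X Y Z P f g g' f' hf hP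
    obtain ⟨W, a, b, h, hb⟩ := CFM_pushEx h1 h3 f g hf
    have e : b = f' ≫ (hP.isoIsPushout _ _ h).hom := by simp
    have hb' : Mono b.hom := hb
    rw [e] at hb'
    have hb'' : Mono (f'.hom ≫ (hP.isoIsPushout _ _ h).hom.hom) := hb'
    exact mono_of_mono f'.hom (hP.isoIsPushout _ _ h).hom.hom
  · intro X Y Z f g hf
    obtain ⟨W, a, b, h, _⟩ := CFM_pullEx h3 f g hf
    exact h.hasPullback
  · intro P X Y Z g' f' f g hf hP
    obtain ⟨W, a, b, h, J, hJ, hB, i, hi⟩ := CFM_pullEx h3 f g hf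
    refine ⟨J, hJ, hB, (PB A).ι.mapIso (hP.isoIsPullback _ _ h) ≪≫ i, ?_⟩
    rw [Iso.trans_hom, Category.assoc, hi]
    have e : (hP.isoIsPullback _ _ h).hom ≫ b = f' := by simp
    exact congrArg (fun h => h.hom) e

end Pool.Agent.PMC
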