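import Pool.Agent.Lib.MP_64c6ca_gt.Spec

/-!
# MP_64c6ca_gt: the module CFPM
-/

set_option autoImplicit false
set_option linter.unusedVariables false

open CategoryTheory MonoidalCategory CartesianMonoidalCategory Simplicial HomotopicalAlgebra Limits
  Opposite

universe w v u

namespace Pool.Agent.PMC

open SSet SSet.modelCategoryQuillen

section

variable {M : Type u} [SmallCategory M]

/-- the inverse of the inclusion of the wide subcategory of all morphisms -/
def CFPM_inv [(⊤ : MorphismProperty M).IsMultiplicative] :
    M ⥤ WideSubcategory (⊤ : MorphismProperty M) where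
  obj X := ⟨X⟩
  map f := ⟨f, trivial⟩
  map_id _ := rfl
  map_comp _ _ := rfl

/-- the inclusion of the wide subcategory of all morphisms is an equivalence -/
def CFPM_equiv [(⊤ : MorphismProperty M).IsMultiplicative] :
    M ≌ WideSubcategory (⊤ : MorphismProperty M) where
  functor := CFPM_inv
  inverse := wideSubcategoryInclusion _
  unitIso := NatIso.ofComponents (fun X => Iso.refl X) (by
    intro X Y f
    change f ≫ 𝟙 Y = 𝟙 X ≫ f
    simp)
  counitIso := NatIso.ofComponents (fun X => Iso.refl X) (by
    intro X Y f
    apply WideSubcategory.hom_ext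
    change f.hom ≫ 𝟙 Y.obj = 𝟙 X.obj ≫ f.hom
    simp)
  functor_unitIso_comp X := by
    apply WideSubcategory.hom_ext
    change 𝟙 X ≫ 𝟙 X = 𝟙 X
    simp

/-- the functorial factorization in the wide subcategory of all morphisms -/
def CFPM_fact [(⊤ : MorphismProperty M).IsMultiplicative] {C F : MorphismProperty M}
    (d : MorphismProperty.FunctorialFactorizationData C F) :
    MorphismProperty.FunctorialFactorizationData
      (C.inverseImage (wideSubcategoryInclusion (⊤ : MorphismProperty M)))
      (F.inverseImage (wideSubcategoryInclusion (⊤ : MorphismProperty M))) where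
  Z := (wideSubcategoryInclusion (⊤ : MorphismProperty M)).mapArrow ⋙ d.Z ⋙ CFPM_inv
  i :=
    { app := fun f => ⟨d.i.app ((wideSubcategoryInclusion _).mapArrow.obj f), trivial⟩
      naturality := by
        intro f g φ
        apply WideSubcategory.hom_ext
        exact d.i.naturality ((wideSubcategoryInclusion _).mapArrow.map φ) }
  p :=
    { app := fun f => ⟨d.p.app ((wideSubcategoryInclusion _).mapArrow.obj f), trivial⟩
      naturality := by
        intro f g φ
        apply WideSubcategory.hom_ext
        exact d.p.naturality ((wideSubcategoryInclusion _).mapArrow.map φ) }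
  fac := by
    ext f
    exact d.fac_app (f := (wideSubcategoryInclusion _).mapArrow.obj f)
  hi f := d.hi _
  hp f := d.hp _

end

theorem s_CFPM : CFPM.{u} := by
  intro M _ ⟨cf⟩
  obtain ⟨d⟩ := cf.fact
  let P : PartialModel M :=
    { W := ⊤
      C := cf.C
      F := cf.F
      mult := inferInstance
      C_le := le_top
      F_le := le_top
      two_six := fun _ _ _ _ _ => ⟨trivial, trivial, trivial, trivial⟩
      push := cf.push
      push_mem := cf.push_mem
      pull := cf.pull
      pull_mem := cf.pull_mem
      fact := ⟨CFPM_fact d⟩ }
  exact ⟨P, ⟨CFPM_equiv⟩⟩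

end Pool.Agent.PMC
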