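import Pool.Agent.Lib.MP_64c6ca_gt.Spec

/-!
# MP_64c6ca_gt: module CFTr
-/

set_option autoImplicit false

open CategoryTheory MonoidalCategory CartesianMonoidalCategory Simplicial HomotopicalAlgebra Limits
  Opposite

universe w v u

namespace Pool.Agent.PMC

open SSet SSet.modelCategoryQuillen

section

variable {M : Type w} [Category.{u} M] {M' : Type u} [Category.{u} M'] (e : M ≌ M')

/-- the transported class -/
def CFTr_cl (C : MorphismProperty M) : MorphismProperty M' :=
  fun _ _ f => C.isoClosure (e.inverse.map f)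

theorem CFTr_of (C : MorphismProperty M) {X Y : M} (c : X ⟶ Y) (hc : C c) :
    C.isoClosure (e.inverse.map (e.functor.map c)) :=
  ⟨X, Y, c, hc, ⟨Arrow.isoMk (e.unitIso.app X) (e.unitIso.app Y)
    (by simp)⟩⟩

theorem CFTr_iso (C : MorphismProperty M) {X Y : M} (f : X ⟶ Y) (h : C.isoClosure f) :
    ∃ (A B : M) (c : A ⟶ B) (α : A ≅ X) (β : B ≅ Y), C c ∧ c ≫ β.hom = α.hom ≫ f := by
  obtain ⟨A, B, c, hc, ⟨φ⟩⟩ := h
  exact ⟨A, B, c, Arrow.leftFunc.mapIso φ, Arrow.rightFunc.mapIso φ, hc, φ.hom.w.symm⟩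

theorem CFTr_inv {A B X Y : M} (c : A ⟶ B) (f : X ⟶ Y) (α : A ≅ X) (β : B ≅ Y)
    (h : c ≫ β.hom = α.hom ≫ f) : f ≫ β.symm.hom = α.symm.hom ≫ c := by
  rw [Iso.symm_hom, Iso.symm_hom, Iso.comp_inv_eq, Category.assoc, h, Iso.inv_hom_id_assoc]

theorem CFTr_nat1 {a b : M'} {c d : M} (l : a ⟶ b) (x : e.inverse.obj a ⟶ c)
    (y : e.inverse.obj b ⟶ d) (z : c ⟶ d) (h : e.inverse.map l ≫ y = x ≫ z) :
    l ≫ (e.counitIso.inv.app b ≫ e.functor.map y) =
      (e.counitIso.inv.app a ≫ e.functor.map x) ≫ e.functor.map z := by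
  have h3 : l ≫ e.counitIso.inv.app b =
      e.counitIso.inv.app a ≫ e.functor.map (e.inverse.map l) := e.counitIso.inv.naturality l
  rw [← Category.assoc, h3, Category.assoc, Category.assoc, ← Functor.map_comp, h,
    ← Functor.map_comp]

theorem CFTr_nat2 {a b : M'} {c d : M} (z : c ⟶ d) (x : c ⟶ e.inverse.obj a)
    (y : d ⟶ e.inverse.obj b) (r : a ⟶ b) (h : z ≫ y = x ≫ e.inverse.map r) :
    e.functor.map z ≫ (e.functor.map y ≫ e.counitIso.hom.app b) =
      (e.functor.map x ≫ e.counitIso.hom.app a) ≫ r := by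
  have h3 : e.functor.map (e.inverse.map r) ≫ e.counitIso.hom.app b =
      e.counitIso.hom.app a ≫ r := e.counitIso.hom.naturality r
  rw [← Category.assoc, ← Functor.map_comp, h, Functor.map_comp, Category.assoc, h3,
    Category.assoc]

theorem CFTr_fc {a b : M'} {c : M} (x : e.inverse.obj a ⟶ c) (y : c ⟶ e.inverse.obj b)
    (r : a ⟶ b) (h : x ≫ y = e.inverse.map r) :
    (e.counitIso.inv.app a ≫ e.functor.map x) ≫ (e.functor.map y ≫ e.counitIso.hom.app b) =
      r := by
  have h3 : e.functor.map (e.inverse.map r) ≫ e.counitIso.hom.app b =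
      e.counitIso.hom.app a ≫ r := e.counitIso.hom.naturality r
  have h4 : e.counitIso.inv.app a ≫ e.counitIso.hom.app a = 𝟙 a :=
    e.counitIso.inv_hom_id_app a
  rw [Category.assoc, ← Category.assoc (e.functor.map x), ← Functor.map_comp, h, h3,
    ← Category.assoc, h4]
  exact Category.id_comp r

theorem CFTr_push (S : CF M) {X Y Z : M'} (f : X ⟶ Y) (g : X ⟶ Z) (hf : CFTr_cl e S.C f) :
    HasPushout f g := by
  obtain ⟨A, B, c, α, β, hc, hsq⟩ := CFTr_iso S.C _ hf
  have : HasPushout c (α.hom ≫ e.inverse.map g) := S.push _ _ hc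
  have h1 : IsPushout c (α.hom ≫ e.inverse.map g) (pushout.inl _ _) (pushout.inr _ _) :=
    IsPushout.of_hasPushout _ _
  have h2 : IsPushout (e.inverse.map f) (e.inverse.map g)
      (β.inv ≫ pushout.inl c (α.hom ≫ e.inverse.map g))
      (pushout.inr c (α.hom ≫ e.inverse.map g)) :=
    IsPushout.of_iso h1 α β (Iso.refl _) (Iso.refl _) hsq (by simp) (by simp) (by simp)
  have h3 : HasPushout (e.inverse.map f) (e.inverse.map g) := h2.hasPushout
  have h4 : HasColimit (span f g ⋙ e.inverse) := hasColimit_of_iso (spanCompIso e.inverse f g)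
  exact Adjunction.hasColimit_of_comp_equivalence (span f g) e.inverse

theorem CFTr_push_mem (S : CF M) {X Y Z P : M'} (f : X ⟶ Y) (g : X ⟶ Z) (g' : Y ⟶ P) (f' : Z ⟶ P)
    (hf : CFTr_cl e S.C f) (h : IsPushout f g g' f') : CFTr_cl e S.C f' := by
  obtain ⟨A, B, c, α, β, hc, hsq⟩ := CFTr_iso S.C _ hf
  have h1 : IsPushout (e.inverse.map f) (e.inverse.map g) (e.inverse.map g') (e.inverse.map f') :=
    h.map e.inverse
  have h2 : IsPushout c (α.hom ≫ e.inverse.map g) (β.hom ≫ e.inverse.map g')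
      (e.inverse.map f') :=
    IsPushout.of_iso h1 α.symm β.symm (Iso.refl _) (Iso.refl _)
      (CFTr_inv c _ α β hsq) (by simp) (by simp) (by simp)
  exact S.C.le_isoClosure _ (S.push_mem _ _ _ _ hc h2)

theorem CFTr_pull (S : CF M) {X Y Z : M'} (f : X ⟶ Z) (g : Y ⟶ Z) (hf : CFTr_cl e S.F f) :
    HasPullback f g := by
  obtain ⟨A, B, c, α, β, hc, hsq⟩ := CFTr_iso S.F _ hf
  have : HasPullback c (e.inverse.map g ≫ β.inv) := S.pull _ _ hc
  have h1 : IsPullback (pullback.fst c (e.inverse.map g ≫ β.inv))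
      (pullback.snd c (e.inverse.map g ≫ β.inv)) c (e.inverse.map g ≫ β.inv) :=
    IsPullback.of_hasPullback _ _
  have h2 : IsPullback (pullback.fst c (e.inverse.map g ≫ β.inv) ≫ α.hom)
      (pullback.snd c (e.inverse.map g ≫ β.inv)) (e.inverse.map f) (e.inverse.map g) :=
    IsPullback.of_iso h1 (Iso.refl _) α (Iso.refl _) β (by simp) (by simp) hsq (by simp)
  have h3 : HasPullback (e.inverse.map f) (e.inverse.map g) := h2.hasPullback
  have h4 : HasLimit (cospan f g ⋙ e.inverse) := hasLimit_of_iso (cospanCompIso e.inverse f g).symm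
  exact Adjunction.hasLimit_of_comp_equivalence (cospan f g) e.inverse

theorem CFTr_pull_mem (S : CF M) {P X Y Z : M'} (g' : P ⟶ X) (f' : P ⟶ Y) (f : X ⟶ Z) (g : Y ⟶ Z)
    (hf : CFTr_cl e S.F f) (h : IsPullback g' f' f g) : CFTr_cl e S.F f' := by
  obtain ⟨A, B, c, α, β, hc, hsq⟩ := CFTr_iso S.F _ hf
  have h1 : IsPullback (e.inverse.map g') (e.inverse.map f') (e.inverse.map f)
      (e.inverse.map g) := h.map e.inverse
  have h2 : IsPullback (e.inverse.map g' ≫ α.inv) (e.inverse.map f') c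
      (e.inverse.map g ≫ β.inv) :=
    IsPullback.of_iso h1 (Iso.refl _) α.symm (Iso.refl _) β.symm (by simp) (by simp)
      (CFTr_inv c _ α β hsq) (by simp)
  exact S.F.le_isoClosure _ (S.pull_mem _ _ _ _ hc h2)

theorem CFTr_hi (C : MorphismProperty M) {a : M'} {c : M} (x : e.inverse.obj a ⟶ c) (hx : C x) :
    CFTr_cl e C (e.counitIso.inv.app a ≫ e.functor.map x) := by
  unfold CFTr_cl
  rw [Functor.map_comp]
  have h := CFTr_of e C x hx
  have : IsIso (e.inverse.map (e.counitIso.inv.app a)) := inferInstance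
  exact (MorphismProperty.cancel_left_of_respectsIso C.isoClosure _ _).mpr h

theorem CFTr_hp (C : MorphismProperty M) {a : M'} {c : M} (x : c ⟶ e.inverse.obj a) (hx : C x) :
    CFTr_cl e C (e.functor.map x ≫ e.counitIso.hom.app a) := by
  unfold CFTr_cl
  rw [Functor.map_comp]
  have h := CFTr_of e C x hx
  have : IsIso (e.inverse.map (e.counitIso.hom.app a)) := inferInstance
  exact (MorphismProperty.cancel_right_of_respectsIso C.isoClosure _ _).mpr h

/-- the transported factorization -/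
noncomputable def CFTr_fact (C F : MorphismProperty M)
    (d : MorphismProperty.FunctorialFactorizationData C F) :
    MorphismProperty.FunctorialFactorizationData (CFTr_cl e C) (CFTr_cl e F) where
  Z := e.inverse.mapArrow ⋙ d.Z ⋙ e.functor
  i :=
    { app := fun f => e.counitIso.inv.app f.left ≫
        e.functor.map (d.i.app (e.inverse.mapArrow.obj f))
      naturality := fun f g α => CFTr_nat1 e α.left _ _ _
        (d.i.naturality (e.inverse.mapArrow.map α)) }
  p :=
    { app := fun f => e.functor.map (d.p.app (e.inverse.mapArrow.obj f)) ≫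
        e.counitIso.hom.app f.right
      naturality := fun f g α => CFTr_nat2 e _ _ _ α.right
        (d.p.naturality (e.inverse.mapArrow.map α)) }
  fac := by
    ext f
    exact CFTr_fc e _ _ f.hom (d.fac_app (f := e.inverse.mapArrow.obj f))
  hi f := by
    exact CFTr_hi e C _ (d.hi (e.inverse.mapArrow.obj f))
  hp f := by
    exact CFTr_hp e F _ (d.hp (e.inverse.mapArrow.obj f))

end

theorem s_CFTr : CFTr.{w, u} := by
  intro M _ M' _ e hS
  obtain ⟨S⟩ := hS
  obtain ⟨d⟩ := S.fact
  exact ⟨{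
    C := CFTr_cl e S.C
    F := CFTr_cl e S.F
    push := fun f g hf => CFTr_push e S f g hf
    push_mem := fun f g g' f' hf h => CFTr_push_mem e S f g g' f' hf h
    pull := fun f g hf => CFTr_pull e S f g hf
    pull_mem := fun g' f' f g hf h => CFTr_pull_mem e S g' f' f g hf h
    fact := ⟨CFTr_fact e S.C S.F d⟩ }⟩

end Pool.Agent.PMC
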