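import Pool.Agent.Lib.MP_64c6ca_gt.Spec

/-!
# MP_64c6ca_gt: comma categories and categories of elements
-/

set_option autoImplicit false

open CategoryTheory MonoidalCategory CartesianMonoidalCategory Simplicial HomotopicalAlgebra Limits
  Opposite

universe w v u

namespace Pool.Agent.PMC

open SSet SSet.modelCategoryQuillen

section

variable {A M : Type u} [SmallCategory A] [SmallCategory M] (R : M ⥤ (Aᵒᵖ ⥤ Type u))
  (v : A ⥤ M) (φ : v ⋙ R ≅ yoneda) (X : M)

/-- the element of `R X` corresponding to a morphism `v a ⟶ X` -/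
def CostEls_el {a : A} (f : v.obj a ⟶ X) : (R.obj X).obj (op a) :=
  yonedaEquiv (φ.inv.app a ≫ R.map f)

theorem CostEls_el_map {a a' : A} (g : a ⟶ a') (f' : v.obj a' ⟶ X) :
    (R.obj X).map g.op (CostEls_el R v φ X f') = CostEls_el R v φ X (v.map g ≫ f') := by
  unfold CostEls_el
  rw [CategoryTheory.yonedaEquiv_naturality]
  congr 1
  rw [← Category.assoc, φ.inv.naturality, Category.assoc, Functor.comp_map, R.map_comp]

theorem CostEls_el_inj [R.Faithful] {a : A} {f f' : v.obj a ⟶ X}
    (h : CostEls_el R v φ X f = CostEls_el R v φ X f') : f = f' := by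
  unfold CostEls_el at h
  have h2 := yonedaEquiv.injective h
  rw [cancel_epi] at h2
  exact R.map_injective h2

theorem CostEls_el_surj [R.Full] {a : A} (t : (R.obj X).obj (op a)) :
    ∃ f : v.obj a ⟶ X, CostEls_el R v φ X f = t := by
  refine ⟨R.preimage (φ.hom.app a ≫ yonedaEquiv.symm t), ?_⟩
  unfold CostEls_el
  rw [R.map_preimage, ← Category.assoc, Iso.inv_hom_id_app, Category.id_comp,
    Equiv.apply_symm_apply]

/-- the functor from the comma category to the category of elements -/
def CostEls_F : CostructuredArrow v X ⥤ Els (R.obj X) where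
  obj x := ⟨x.left, CostEls_el R v φ X x.hom⟩
  map {x y} g := ⟨g.left, by rw [CostEls_el_map, CostructuredArrow.w]⟩
  map_id _ := rfl
  map_comp _ _ := rfl

theorem CostEls_faithful : (CostEls_F R v φ X).Faithful := ⟨by
  intro x y g g' h
  apply CostructuredArrow.hom_ext
  exact congrArg Subtype.val h⟩

theorem CostEls_full [R.Faithful] : (CostEls_F R v φ X).Full := ⟨by
  intro x y h
  refine ⟨CostructuredArrow.homMk h.1 ?_, Subtype.ext rfl⟩
  apply CostEls_el_inj R v φ X
  rw [← CostEls_el_map]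
  exact h.2⟩

theorem CostEls_ess [R.Full] : (CostEls_F R v φ X).EssSurj := ⟨by
  rintro ⟨a, t⟩
  obtain ⟨f, rfl⟩ := CostEls_el_surj R v φ X t
  exact ⟨CostructuredArrow.mk f, ⟨Iso.refl _⟩⟩⟩

end

theorem s_CostEls (h1 : NerveB.{u}) : CostEls.{u} := by
  intro A M _ _ R _ _ v φ X hX
  have h2 : (CostEls_F R v φ X).Faithful := CostEls_faithful R v φ X
  have h3 : (CostEls_F R v φ X).Full := CostEls_full R v φ X
  have h4 : (CostEls_F R v φ X).EssSurj := CostEls_ess R v φ X
  have h5 : (CostEls_F R v φ X).IsEquivalence := {}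
  have h6 : WEq (nerveMap (CostEls_F R v φ X)) :=
    h1.1 (CostEls_F R v φ X) (CostEls_F R v φ X).inv
      (Relation.EqvGen.rel _ _ ⟨(CostEls_F R v φ X).asEquivalence.unitIso.inv⟩)
      (Relation.EqvGen.rel _ _ ⟨(CostEls_F R v φ X).asEquivalence.counitIso.hom⟩)
  exact (h1.2.2 (CostEls_F R v φ X) h6).2 hX

end Pool.Agent.PMC
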