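import Pool.Agent.Lib.MP_64c6ca_gt.Spec

/-!
# MP_64c6ca_gt, module Dold
-/

set_option autoImplicit false

open CategoryTheory MonoidalCategory CartesianMonoidalCategory Simplicial HomotopicalAlgebra Limits
  Opposite

universe w v u

namespace Pool.Agent.PMC

open SSet SSet.modelCategoryQuillen

theorem Dold_i0 {X Y Z : SSet.{u}} (f : X ⟶ Y) (g : Y ⊗ Δ[1] ⟶ Z) :
    ι₀ ≫ (f ▷ Δ[1]) ≫ g = f ≫ ι₀ ≫ g := by
  rw [← Category.assoc, ι₀_comp, Category.assoc]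

theorem Dold_i1 {X Y Z : SSet.{u}} (f : X ⟶ Y) (g : Y ⊗ Δ[1] ⟶ Z) :
    ι₁ ≫ (f ▷ Δ[1]) ≫ g = f ≫ ι₁ ≫ g := by
  rw [← Category.assoc, ι₁_comp, Category.assoc]

theorem Dold_f0 {X Z : SSet.{u}} (g : X ⟶ Z) : ι₀ ≫ fst X Δ[1] ≫ g = g := by
  rw [← Category.assoc, ι₀_fst, Category.id_comp]

theorem Dold_f1 {X Z : SSet.{u}} (g : X ⟶ Z) : ι₁ ≫ fst X Δ[1] ≫ g = g := by
  rw [← Category.assoc, ι₁_fst, Category.id_comp]

theorem Dold_w0 {X Z : SSet.{u}} (g : X ⊗ Δ[1] ⟶ Z) :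
    (ι₀ ▷ Δ[1]) ≫ (fst X Δ[1] ▷ Δ[1]) ≫ g = g := by
  rw [← Category.assoc, ← comp_whiskerRight, ι₀_fst, id_whiskerRight, Category.id_comp]

theorem Dold_w1 {X Z : SSet.{u}} (g : X ⊗ Δ[1] ⟶ Z) :
    (ι₁ ▷ Δ[1]) ≫ (fst X Δ[1] ▷ Δ[1]) ≫ g = g := by
  rw [← Category.assoc, ← comp_whiskerRight, ι₁_fst, id_whiskerRight, Category.id_comp]

theorem s_Dold (hHle : Hle.{u}) (hSq : Sq.{u}) : Dold.{u} := by
  intro E S p _ s hs hH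
  obtain ⟨H⟩ := hH
  have hs' : ∀ {Z : SSet.{u}} (g : S ⟶ Z), s ≫ p ≫ g = g := fun g => by
    rw [← Category.assoc, hs, Category.id_comp]
  have H0 : ι₀ ≫ H.h = p ≫ s := H.h₀
  have H1 : ι₁ ≫ H.h = 𝟙 E := H.h₁
  have H0' : ∀ {Z : SSet.{u}} (g : E ⟶ Z), ι₀ ≫ H.h ≫ g = p ≫ s ≫ g := fun g => by
    rw [← Category.assoc, H0, Category.assoc]
  have H1' : ∀ {Z : SSet.{u}} (g : E ⟶ Z), ι₁ ≫ H.h ≫ g = g := fun g => by
    rw [← Category.assoc, H1, Category.id_comp]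
  obtain ⟨t, ht0, ht1, ht2, ht3⟩ := hSq p (fst E Δ[1] ≫ p ≫ s) (H.h ≫ p ≫ s) H.h
    ((fst E Δ[1] ▷ Δ[1]) ≫ H.h ≫ p) (by rw [Dold_f0, H0', hs']) (by rw [Dold_f1, H0])
    (by rw [Dold_i0, H0']; simp only [Category.assoc])
    (by rw [Dold_w0]; simp only [Category.assoc, hs, Category.comp_id])
    (by rw [Dold_w1])
  have K0 : ι₀ ≫ ι₁ ≫ t = p ≫ s := by
    rw [← Dold_i1, ht1, H1']
  have K1 : ι₁ ≫ ι₁ ≫ t = 𝟙 E := by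
    rw [← Dold_i1, ht2, H1]
  have K2 : (ι₁ ≫ t) ≫ p = fst E Δ[1] ≫ p := by
    rw [Category.assoc, ht3, Dold_i1, H1']
  intro A B i hi
  have : Mono i := hi
  refine ⟨fun {a b} sq => ?_⟩
  have hw : a ≫ p = i ≫ b := sq.w
  obtain ⟨r, hr0, hr1, hr2⟩ := hHle i p (b ≫ s) ((a ▷ Δ[1]) ≫ ι₁ ≫ t) (fst B Δ[1] ≫ b)
    (by rw [Dold_i0, K0, ← Category.assoc, ← hw, Category.assoc])
    (by rw [Dold_f0, Category.assoc, hs, Category.comp_id])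
    (by
      rw [Category.assoc, K2, ← Category.assoc, ← Category.assoc, whiskerRight_fst,
        whiskerRight_fst, Category.assoc, Category.assoc, hw])
  refine ⟨⟨⟨ι₁ ≫ r, ?_, ?_⟩⟩⟩
  · rw [← Dold_i1, hr1, Dold_i1, K1, Category.comp_id]
  · rw [Category.assoc, hr2, Dold_f1]

end Pool.Agent.PMC
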