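import Pool.Agent.Lib.MP_64c6ca_gt.Spec

/-!
# MP_64c6ca_gt: module EssS
-/

set_option autoImplicit false

open CategoryTheory MonoidalCategory CartesianMonoidalCategory Simplicial HomotopicalAlgebra Limits
  Opposite

universe w v u

namespace Pool.Agent.PMC

open SSet SSet.modelCategoryQuillen

/-- the values of a bounded presheaf embed into a fixed set -/
theorem EssS_emb {A : Type u} [SmallCategory A] (T : Aᵒᵖ ⥤ Type u) (h : Bd T) (a : Aᵒᵖ) :
    Nonempty (T.obj a ↪ (bd A).out) := by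
  have h1 := h a
  rw [← Cardinal.mk_out (bd A)] at h1
  exact (Cardinal.le_def _ _).1 h1

/-- the graphs of the maps of a presheaf whose values are embedded into `Ω` -/
def EssS_rel {A : Type u} [SmallCategory A] (T : Aᵒᵖ ⥤ Type u) (Ω : Type u)
    (e : ∀ a, T.obj a ↪ Ω) : ∀ a b : Aᵒᵖ, (a ⟶ b) → Set (Ω × Ω) :=
  fun a b f => {p | ∃ x : T.obj a, p = (e a x, e b (T.map f x))}

theorem EssS_ex {A : Type u} [SmallCategory A] {T T' : Aᵒᵖ ⥤ Type u} {Ω : Type u}
    {e : ∀ a, T.obj a ↪ Ω} {e' : ∀ a, T'.obj a ↪ Ω}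
    (h : EssS_rel T Ω e = EssS_rel T' Ω e') (a b : Aᵒᵖ) (f : a ⟶ b) (x : T.obj a) :
    ∃ x' : T'.obj a, e' a x' = e a x ∧ e' b (T'.map f x') = e b (T.map f x) := by
  have h1 : (e a x, e b (T.map f x)) ∈ EssS_rel T Ω e a b f := ⟨x, rfl⟩
  rw [h] at h1
  obtain ⟨x', hx'⟩ := h1
  exact ⟨x', (Prod.ext_iff.1 hx').1.symm, (Prod.ext_iff.1 hx').2.symm⟩

/-- presheaves with the same graphs are isomorphic -/
theorem EssS_iso {A : Type u} [SmallCategory A] {T T' : Aᵒᵖ ⥤ Type u} {Ω : Type u}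
    {e : ∀ a, T.obj a ↪ Ω} {e' : ∀ a, T'.obj a ↪ Ω}
    (h : EssS_rel T Ω e = EssS_rel T' Ω e') : Nonempty (T ≅ T') := by
  have h3 : ∀ (a : Aᵒᵖ) (x : T.obj a), ∃ x' : T'.obj a, e' a x' = e a x := fun a x => by
    obtain ⟨x', hx, _⟩ := EssS_ex h a a (𝟙 a) x
    exact ⟨x', hx⟩
  have h4 : ∀ (a : Aᵒᵖ) (x : T'.obj a), ∃ x' : T.obj a, e a x' = e' a x := fun a x => by
    obtain ⟨x', hx, _⟩ := EssS_ex h.symm a a (𝟙 a) x
    exact ⟨x', hx⟩
  choose φ hφ using h3
  choose ψ hψ using h4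
  have hb : ∀ a, Function.Bijective (φ a) := fun a => by
    constructor
    · intro x y hxy
      apply (e a).injective
      rw [← hφ, ← hφ, hxy]
    · intro y
      refine ⟨ψ a y, ?_⟩
      apply (e' a).injective
      rw [hφ, hψ]
  refine ⟨NatIso.ofComponents (fun a => (Equiv.ofBijective (φ a) (hb a)).toIso) ?_⟩
  intro a b f
  ext x
  apply (e' b).injective
  obtain ⟨x', h5, h6⟩ := EssS_ex h a b f x
  have h7 : x' = φ a x := (e' a).injective (h5.trans (hφ a x).symm)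
  subst h7
  have h8 := hφ b (T.map f x)
  exact h8.trans h6.symm

theorem s_EssS : EssS.{u} := by
  intro A _
  rw [essentiallySmall_iff]
  refine ⟨?_, inferInstance⟩
  have hemb : ∀ (X : (PB A).FullSubcategory) (a : Aᵒᵖ), Nonempty (X.obj.obj a ↪ (bd A).out) :=
    fun X a => EssS_emb X.obj X.property.2 a
  let e : ∀ (X : (PB A).FullSubcategory) (a : Aᵒᵖ), X.obj.obj a ↪ (bd A).out :=
    fun X a => (hemb X a).some
  let F : Skeleton (PB A).FullSubcategory →
      ∀ a b : Aᵒᵖ, (a ⟶ b) → Set ((bd A).out × (bd A).out) :=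
    fun X => EssS_rel ((fromSkeleton _).obj X).obj _ (e ((fromSkeleton _).obj X))
  refine small_of_injective (f := F) ?_
  intro X Y hXY
  obtain ⟨i⟩ := EssS_iso hXY
  rw [← toSkeleton_fromSkeleton_obj X, ← toSkeleton_fromSkeleton_obj Y]
  exact congr_toSkeleton_of_iso ((PB A).isoMk i)

end Pool.Agent.PMC
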