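import Pool.Agent.Lib.MP_64c6ca_gt.Spec

/-!
# MP_64c6ca_gt: the homotopy lifting extension property (module Hle)
-/

set_option autoImplicit false

open CategoryTheory MonoidalCategory CartesianMonoidalCategory Simplicial HomotopicalAlgebra Limits
  Opposite

universe w v u

namespace Pool.Agent.PMC

open SSet SSet.modelCategoryQuillen

/-- simplices of the horn are constant -/
theorem Hle_mem {d : ℕ} (s : (Δ[1] : SSet.{u}) _⦋d⦌)
    (hs : s ∈ (Λ[1, 0] : (Δ[1] : SSet.{u}).Subcomplex).obj (op ⦋d⦌)) (k : Fin (d + 1)) :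
    s k = 0 := by
  rw [mem_horn_iff_notMem_range] at hs
  obtain ⟨j, hj, hs⟩ := hs
  have h1 : s k ≠ j := fun h => hs ⟨k, h⟩
  omega

/-- the inclusion of the horn is the vertex `0` -/
theorem Hle_horn : (Λ[1, 0] : (Δ[1] : SSet.{u}).Subcomplex).ι =
    const (stdSimplex.obj₀Equiv.{u}.symm 0) := by
  ext ⟨d⟩ ⟨s, hs⟩
  induction d using SimplexCategory.rec with | _ d =>
  have h2 : ∀ k, s k = 0 := Hle_mem s hs
  apply SSet.stdSimplex.ext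
  intro k
  exact h2 k

/-- the vertex `0` is in the horn -/
theorem Hle_vertex : stdSimplex.obj₀Equiv.{u}.symm 0 ∈
    (Λ[1, 0] : (Δ[1] : SSet.{u}).Subcomplex).obj (op ⦋0⦌) := by
  rw [mem_horn_iff_notMem_range]
  refine ⟨1, by simp, ?_⟩
  rintro ⟨k, hk⟩
  change (0 : Fin 2) = 1 at hk
  exact absurd hk (by decide)

/-- the map to the horn -/
noncomputable def Hle_pt (B : SSet.{u}) : B ⟶ B ⊗ (Λ[1, 0] : (Δ[1] : SSet.{u}).Subcomplex).toSSet :=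
  lift (𝟙 B) (const ⟨stdSimplex.obj₀Equiv.{u}.symm 0, Hle_vertex⟩)

theorem s_Hle (h1 : LiftPP.{u}) : Hle.{u} := by
  intro A B E S i _ p _ e h c h2 h3 h4
  have k1 : i ▷ (Λ[1, 0] : (Δ[1] : SSet.{u}).Subcomplex).toSSet ≫ fst B _ ≫ e =
      A ◁ (Λ[1, 0] : (Δ[1] : SSet.{u}).Subcomplex).ι ≫ h := by
    have h6 : (A ◁ (const (stdSimplex.obj₀Equiv.{u}.symm 0) :
        (Λ[1, 0] : (Δ[1] : SSet.{u}).Subcomplex).toSSet ⟶ Δ[1])) = fst A _ ≫ ι₀ := rfl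
    rw [Hle_horn, h6, Category.assoc, ← h2]
    rfl
  have k2 : (fst B (Λ[1, 0] : (Δ[1] : SSet.{u}).Subcomplex).toSSet ≫ e) ≫ p =
      B ◁ (Λ[1, 0] : (Δ[1] : SSet.{u}).Subcomplex).ι ≫ c := by
    have h6 : (B ◁ (const (stdSimplex.obj₀Equiv.{u}.symm 0) :
        (Λ[1, 0] : (Δ[1] : SSet.{u}).Subcomplex).toSSet ⟶ Δ[1])) = fst B _ ≫ ι₀ := rfl
    rw [Hle_horn, h6, Category.assoc, Category.assoc, ← h3]
  obtain ⟨t, ht1, ht2, ht3⟩ := h1 i (Λ[1, 0] : (Δ[1] : SSet.{u}).Subcomplex).ι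
    (anodyneExtensions.horn_ι 0) p (fst B _ ≫ e) h c k1 k2 h4
  refine ⟨t, ?_, ht2, ht3⟩
  have h5 : Hle_pt B ≫ (B ◁ (Λ[1, 0] : (Δ[1] : SSet.{u}).Subcomplex).ι) = ι₀ := rfl
  rw [← h5, Category.assoc, ht1]
  rfl

end Pool.Agent.PMC
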