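import Pool.Agent.Lib.MP_64c6ca_gt.Spec

/-!
# MP_64c6ca_gt: module HtpyB
-/

set_option autoImplicit false
set_option linter.unusedVariables false

open CategoryTheory MonoidalCategory CartesianMonoidalCategory Simplicial HomotopicalAlgebra Limits
  Opposite

universe w v u

namespace Pool.Agent.PMC

open SSet SSet.modelCategoryQuillen

/-- A map `X ⊗ Δ[1] ⟶ Y` with the right restrictions gives a homotopy. -/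
theorem HtpyB_mk {X Y : SSet.{u}} {f g : X ⟶ Y} (h : X ⊗ Δ[1] ⟶ Y) (h0 : ι₀ ≫ h = f)
    (h1 : ι₁ ≫ h = g) : Htpy f g := by
  refine ⟨{ h := h, h₀ := h0, h₁ := h1, rel := ?_ }⟩
  ext m x
  exact absurd x.1.2 (by simp)

theorem s_HtpyB (h1 : Sq.{u}) : HtpyB.{u} := by
  intro X K _ f g h
  have key : ∀ (e h₀ h₁ : X ⊗ Δ[1] ⟶ K), ι₀ ≫ e = ι₀ ≫ h₀ → ι₁ ≫ e = ι₀ ≫ h₁ →
      ∃ t : (X ⊗ Δ[1]) ⊗ Δ[1] ⟶ K, ι₀ ≫ t = e ∧ (ι₀ ▷ Δ[1]) ≫ t = h₀ ∧ (ι₁ ▷ Δ[1]) ≫ t = h₁ := by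
    intro e h₀ h₁ a b
    obtain ⟨t, t1, t2, t3, _⟩ := h1 (terminal.from K) e h₀ h₁ (terminal.from _) a b
      (by simp) (by simp) (by simp)
    exact ⟨t, t1, t2, t3⟩
  constructor
  · rintro ⟨H⟩
    obtain ⟨t, t1, t2, t3⟩ := key (fst _ _ ≫ f) H.h (fst _ _ ≫ f)
      (by rw [← Category.assoc, ι₀_fst, Category.id_comp, H.h₀])
      (by rw [← Category.assoc, ι₁_fst, ← Category.assoc, ι₀_fst])
    refine HtpyB_mk (ι₁ ≫ t) ?_ ?_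
    · have e : (ι₀ : X ⟶ X ⊗ Δ[1]) ≫ ι₁ = ι₁ ≫ (ι₀ ▷ Δ[1]) := (ι₁_comp _).symm
      rw [← Category.assoc, e, Category.assoc, t2, H.h₁]
    · have e : (ι₁ : X ⟶ X ⊗ Δ[1]) ≫ ι₁ = ι₁ ≫ (ι₁ ▷ Δ[1]) := (ι₁_comp _).symm
      rw [← Category.assoc, e, Category.assoc, t3, ← Category.assoc, ι₁_fst, Category.id_comp]
  · rintro ⟨H⟩ ⟨H'⟩
    obtain ⟨t, t1, t2, t3⟩ := key H.h (fst _ _ ≫ f) H'.h
      (by rw [← Category.assoc, ι₀_fst, Category.id_comp, H.h₀])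
      (by rw [H.h₁, H'.h₀])
    refine HtpyB_mk (ι₁ ≫ t) ?_ ?_
    · have e : (ι₀ : X ⟶ X ⊗ Δ[1]) ≫ ι₁ = ι₁ ≫ (ι₀ ▷ Δ[1]) := (ι₁_comp _).symm
      rw [← Category.assoc, e, Category.assoc, t2, ← Category.assoc, ι₁_fst, Category.id_comp]
    · have e : (ι₁ : X ⟶ X ⊗ Δ[1]) ≫ ι₁ = ι₁ ≫ (ι₁ ▷ Δ[1]) := (ι₁_comp _).symm
      rw [← Category.assoc, e, Category.assoc, t3, H'.h₁]

end Pool.Agent.PMC
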