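import Pool.Agent.Lib.MP_64c6ca_gt.Spec

/-!
# MP_64c6ca_gt, module LiftPP
-/

set_option autoImplicit false

open CategoryTheory MonoidalCategory CartesianMonoidalCategory Simplicial HomotopicalAlgebra Limits
  Opposite

universe w v u

namespace Pool.Agent.PMC

open SSet SSet.modelCategoryQuillen

theorem s_LiftPP : LiftPP.{u} := by
  intro A B C D E S i _ j hj p _ a b c hab hac hbc
  let sq : (curriedTensor SSet.{u}).PushoutObjObj i j := Functor.PushoutObjObj.ofHasPushout _ i j
  have hι : anodyneExtensions sq.ι := anodyneExtensions_pushoutObjObjι sq hj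
  have hl : HasLiftingProperty sq.ι p := hι _ (by
    rw [← HomotopicalAlgebra.fibration_iff]
    infer_instance)
  let f : sq.pt ⟶ E := sq.isPushout.desc a b hab
  have hf1 : sq.inl ≫ f = a := sq.isPushout.inl_desc _ _ _
  have hf2 : sq.inr ≫ f = b := sq.isPushout.inr_desc _ _ _
  have h1 : sq.inl ≫ sq.ι = B ◁ j := sq.inl_ι
  have h2 : sq.inr ≫ sq.ι = i ▷ D := sq.inr_ι
  have comm : CommSq f sq.ι p c := ⟨by
    apply sq.hom_ext
    · rw [reassoc_of% hf1, reassoc_of% h1]
      exact hac
    · rw [reassoc_of% hf2, reassoc_of% h2]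
      exact hbc⟩
  refine ⟨comm.lift, ?_, ?_, comm.fac_right⟩
  · rw [← h1, Category.assoc, comm.fac_left, hf1]
  · rw [← h2, Category.assoc, comm.fac_left, hf2]

end Pool.Agent.PMC
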