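import Pool.Agent.Lib.MP_64c6ca_gt.Spec

/-!
# MP_64c6ca_gt: module MonoI
-/

set_option autoImplicit false

open CategoryTheory MonoidalCategory CartesianMonoidalCategory Simplicial HomotopicalAlgebra Limits
  Opposite

universe w v u

namespace Pool.Agent.PMC

open SSet SSet.modelCategoryQuillen

theorem MonoI_range (X Y : SSet.{u}) (n : SimplexCategoryᵒᵖ) (z : (X ⨿ Y).obj n) :
    (∃ x, (coprod.inl : X ⟶ X ⨿ Y).app n x = z) ∨ ∃ y, (coprod.inr : Y ⟶ X ⨿ Y).app n y = z := by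
  have h := isColimitOfHasBinaryCoproductOfPreservesColimit
    ((evaluation SimplexCategoryᵒᵖ (Type u)).obj n) X Y
  have h2 := (Types.binaryCofan_isColimit_iff _).1 ⟨h⟩
  have h3 := h2.2.2.sup_eq_top
  have h4 := h3.ge (Set.mem_univ z)
  exact h4

theorem s_MonoI : MonoI.{u} := by
  intro X
  rw [NatTrans.mono_iff_mono_app]
  intro n
  rw [mono_iff_injective]
  have hl : ∀ x : X.obj n, (coprod.desc (ι₀ : X ⟶ X ⊗ Δ[1]) ι₁).app n
      ((coprod.inl : X ⟶ X ⨿ X).app n x) = ι₀.app n x := by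
    intro x
    have h : (coprod.inl : X ⟶ X ⨿ X) ≫ coprod.desc (ι₀ : X ⟶ X ⊗ Δ[1]) ι₁ = ι₀ :=
      coprod.inl_desc _ _
    have h2 := congrArg (fun f => f.app n x) h
    exact h2
  have hr : ∀ x : X.obj n, (coprod.desc (ι₀ : X ⟶ X ⊗ Δ[1]) ι₁).app n
      ((coprod.inr : X ⟶ X ⨿ X).app n x) = ι₁.app n x := by
    intro x
    have h : (coprod.inr : X ⟶ X ⨿ X) ≫ coprod.desc (ι₀ : X ⟶ X ⊗ Δ[1]) ι₁ = ι₁ :=
      coprod.inr_desc _ _
    have h2 := congrArg (fun f => f.app n x) h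
    exact h2
  have h01 : ∀ x y : X.obj n, (ι₀ : X ⟶ X ⊗ Δ[1]).app n x = ι₁.app n y → False := by
    intro x y h
    obtain ⟨m⟩ := n
    have h2 := congrArg (fun z => z.2) h
    have h3 : (0 : Fin 2) = 1 := by
      have h4 := congrArg (fun (w : Δ[1].obj (op m)) =>
        (stdSimplex.objEquiv w).toOrderHom 0) h2
      exact h4
    exact absurd h3 (by decide)
  intro a b hab
  rcases MonoI_range X X n a with ⟨x, rfl⟩ | ⟨x, rfl⟩ <;>
    rcases MonoI_range X X n b with ⟨y, rfl⟩ | ⟨y, rfl⟩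
  · rw [hl, hl] at hab
    have h2 : x = y := congrArg (fun z => z.1) hab
    rw [h2]
  · rw [hl, hr] at hab
    exact (h01 x y hab).elim
  · rw [hl, hr] at hab
    exact (h01 y x hab.symm).elim
  · rw [hr, hr] at hab
    have h2 : x = y := congrArg (fun z => z.1) hab
    rw [h2]

end Pool.Agent.PMC
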