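import Pool.Agent.Lib.MP_64c6ca_gt.Spec

/-!
# MP_64c6ca_gt: equivalences of nerves from zigzags of natural transformations
-/

set_option autoImplicit false
set_option linter.unusedVariables false

open CategoryTheory MonoidalCategory CartesianMonoidalCategory Simplicial HomotopicalAlgebra Limits
  Opposite

universe w v u

namespace Pool.Agent.PMC

open SSet SSet.modelCategoryQuillen

theorem NerveB_comp {C D E : Type u} [SmallCategory C] [SmallCategory D] [SmallCategory E]
    (F : C ⥤ D) (G : D ⥤ E) : nerveMap F ≫ nerveMap G = nerveMap (F ⋙ G) := rfl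

theorem NerveB_id (C : Type u) [SmallCategory C] : nerveMap (𝟭 C) = 𝟙 (nerve C) := rfl

theorem NerveB_gen (h2 : NerveHtpy.{u}) {C D : Type u} [SmallCategory C] [SmallCategory D]
    {S T : C ⥤ D} (h : Relation.EqvGen (fun S T : C ⥤ D => Nonempty (S ⟶ T)) S T) :
    Relation.EqvGen Htpy (nerveMap S) (nerveMap T) := by
  induction h with
  | rel S T h => exact Relation.EqvGen.rel _ _ (h2 S T h.some)
  | refl S => exact Relation.EqvGen.refl _
  | symm S T _ ih => exact Relation.EqvGen.symm _ _ ih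
  | trans S T U _ _ ih1 ih2 => exact Relation.EqvGen.trans _ _ _ ih1 ih2

theorem NerveB_equiv (h1 : WEqB.{u}) (h2 : NerveHtpy.{u}) {C D : Type u} [SmallCategory C]
    [SmallCategory D] (F : C ⥤ D) (G : D ⥤ C)
    (h3 : Relation.EqvGen (fun S T : C ⥤ C => Nonempty (S ⟶ T)) (F ⋙ G) (𝟭 C))
    (h4 : Relation.EqvGen (fun S T : D ⥤ D => Nonempty (S ⟶ T)) (G ⋙ F) (𝟭 D)) :
    WEq (nerveMap F) := by
  refine h1.2.2.2.2.2 (nerveMap F) (nerveMap G) ?_ ?_
  · rw [NerveB_comp, ← NerveB_id]
    exact NerveB_gen h2 h3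
  · rw [NerveB_comp, ← NerveB_id]
    exact NerveB_gen h2 h4

theorem NerveB_sub (m : SimplexCategoryᵒᵖ) :
    Subsingleton ((nerve (Discrete PUnit.{u + 1})).obj m) := by
  constructor
  intro x y
  exact CategoryTheory.Functor.hext (fun k => Subsingleton.elim _ _)
    (fun k l f => heq_of_eq (Subsingleton.elim _ _))

/-- a map from the unit to the nerve of the one point category -/
def NerveB_pt : 𝟙_ SSet.{u} ⟶ nerve (Discrete PUnit.{u + 1}) where
  app m := ↾fun _ => (CategoryTheory.Functor.const _).obj ⟨PUnit.unit⟩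
  naturality m m' f := by
    ext x

theorem NerveB_unit (h1 : WEqB.{u}) : WEq (toUnit (nerve (Discrete PUnit.{u + 1}))) := by
  refine h1.2.2.2.2.2 _ NerveB_pt ?_ ?_
  · have : toUnit (nerve (Discrete PUnit.{u + 1})) ≫ NerveB_pt = 𝟙 _ := by
      ext m x
    rw [this]
    exact Relation.EqvGen.refl _
  · rw [toUnit_unique (NerveB_pt ≫ toUnit (nerve (Discrete PUnit.{u + 1}))) (𝟙 _)]
    exact Relation.EqvGen.refl _

theorem s_NerveB (h1 : WEqB.{u}) (h2 : NerveHtpy.{u}) : NerveB.{u} := by
  refine ⟨?_, ?_, ?_⟩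
  · intro C D _ _ F G h3 h4
    exact NerveB_equiv h1 h2 F G h3 h4
  · intro C _ t ht
    obtain ⟨ht⟩ := ht
    have hF : WEq (nerveMap (Functor.star C)) := by
      refine NerveB_equiv h1 h2 (Functor.star C)
        ((CategoryTheory.Functor.const (Discrete PUnit.{u + 1})).obj t) ?_ ?_
      · refine Relation.EqvGen.symm _ _ (Relation.EqvGen.rel _ _ ⟨?_⟩)
        exact { app := fun X => ht.from X, naturality := fun X Y f => ht.hom_ext _ _ }
      · refine Relation.EqvGen.rel _ _ ⟨?_⟩
        exact { app := fun X => eqToHom (Subsingleton.elim _ _), naturality := fun X Y f => Subsingleton.elim _ _ }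
    show WEq (toUnit (nerve C))
    rw [toUnit_unique (toUnit (nerve C))
      (nerveMap (Functor.star C) ≫ toUnit (nerve (Discrete PUnit.{u + 1})))]
    exact h1.2.1 _ _ hF (NerveB_unit h1)
  · intro C D _ _ F hF
    show WEq (toUnit (nerve C)) ↔ WEq (toUnit (nerve D))
    rw [toUnit_unique (toUnit (nerve C)) (nerveMap F ≫ toUnit (nerve D))]
    exact ⟨fun h => h1.2.2.1 _ _ hF h, fun h => h1.2.1 _ _ hF h⟩

end Pool.Agent.PMC
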