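import Pool.Agent.Lib.MP_64c6ca_gt.Spec

set_option autoImplicit false
set_option linter.unusedVariables false

open CategoryTheory MonoidalCategory CartesianMonoidalCategory Simplicial HomotopicalAlgebra Limits
  Opposite

universe w v u

namespace Pool.Agent.PMC

open SSet SSet.modelCategoryQuillen

section NerveFib_sec

variable {J A B Z : Type*} [Category J] [Category A] [Category B] [Category Z]

/-- functors to a comma category -/
def NerveFib_mk (L : A ⥤ Z) (R : B ⥤ Z) (G : J ⥤ A) (H : J ⥤ B) (τ : G ⋙ L ⟶ H ⋙ R) :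
    J ⥤ Comma L R where
  obj j := ⟨G.obj j, H.obj j, τ.app j⟩
  map f := { left := G.map f, right := H.map f, w := τ.naturality f }
  map_id j := by ext <;> simp
  map_comp f g := by ext <;> simp

/-- the functor `(a, i, f) ↦ (a, S i, f)` -/
def NerveFib_E (F : A ⥤ Z) (S : B ⥤ Z) : Comma F S ⥤ Comma F (𝟭 Z) where
  obj x := ⟨x.left, S.obj x.right, x.hom⟩
  map f := { left := f.left, right := S.map f.right, w := f.w }
  map_id j := by ext <;> simp
  map_comp f g := by ext <;> simp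

theorem NerveFib_inj (F : A ⥤ Z) (S : B ⥤ Z) (y y' : J ⥤ Comma F S)
    (h1 : y ⋙ NerveFib_E F S = y' ⋙ NerveFib_E F S)
    (h2 : y ⋙ Comma.snd F S = y' ⋙ Comma.snd F S) : y = y' := by
  have key : ∀ (G G' : J ⥤ A) (H H' : J ⥤ B) (τ : G ⋙ F ⟶ H ⋙ S) (τ' : G' ⋙ F ⟶ H' ⋙ S),
      NerveFib_mk F S G H τ ⋙ NerveFib_E F S = NerveFib_mk F S G' H' τ' ⋙ NerveFib_E F S →
      H = H' → NerveFib_mk F S G H τ = NerveFib_mk F S G' H' τ' := by
    intro G G' H H' τ τ' h1 h2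
    subst h2
    have hG : G = G' := congrArg (fun K => K ⋙ Comma.fst F (𝟭 Z)) h1
    subst hG
    have hτ : τ = τ' := by
      ext j
      have h3 := Functor.congr_obj h1 j
      injection h3
    rw [hτ]
  exact key (y ⋙ Comma.fst F S) (y' ⋙ Comma.fst F S) (y ⋙ Comma.snd F S) (y' ⋙ Comma.snd F S)
    (Functor.whiskerLeft y (Comma.natTrans F S))
    (Functor.whiskerLeft y' (Comma.natTrans F S)) h1 h2

theorem NerveFib_surj (F : A ⥤ Z) (S : B ⥤ Z) (x : J ⥤ Comma F (𝟭 Z)) (θ : J ⥤ B)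
    (h : x ⋙ Comma.snd F (𝟭 Z) = θ ⋙ S) :
    ∃ y : J ⥤ Comma F S, y ⋙ NerveFib_E F S = x ∧ y ⋙ Comma.snd F S = θ := by
  have key : ∀ (G : J ⥤ A) (H : J ⥤ Z) (τ : G ⋙ F ⟶ H ⋙ 𝟭 Z), H = θ ⋙ S →
      ∃ y : J ⥤ Comma F S, y ⋙ NerveFib_E F S = NerveFib_mk F (𝟭 Z) G H τ ∧
        y ⋙ Comma.snd F S = θ := by
    intro G H τ hH
    subst hH
    exact ⟨NerveFib_mk F S G θ τ, rfl, rfl⟩
  exact key (x ⋙ Comma.fst F (𝟭 Z)) (x ⋙ Comma.snd F (𝟭 Z))
    (Functor.whiskerLeft x (Comma.natTrans F (𝟭 Z))) h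

end NerveFib_sec

/-- a functor to `Fin (n+1)` gives a map to the standard simplex -/
def NerveFib_s {n : ℕ} (C : Type u) [Category.{u} C] (P : C ⥤ Fin (n + 1)) :
    nerve C ⟶ (Δ[n] : SSet.{u}) where
  app m := ↾fun (y : Fin (m.unop.len + 1) ⥤ C) =>
    stdSimplex.objMk (n := ⦋n⦌) (m := m) ⟨(y ⋙ P).obj, (y ⋙ P).monotone⟩
  naturality m m' f := rfl

theorem s_NerveFib : NerveFib.{u} := by
  intro A Z _ _ F n σ
  let S : Fin (n + 1) ⥤ Z := SSet.yonedaEquiv σ
  have hσ : σ = SSet.yonedaEquiv.symm S := (SSet.yonedaEquiv.symm_apply_apply σ).symm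
  refine ⟨S, NerveFib_s _ (Comma.snd F S), nerveMap (NerveFib_E F S), ?_⟩
  rw [hσ]
  apply IsPullback.of_forall_isPullback_app
  intro m
  rw [Types.isPullback_iff]
  refine ⟨rfl, ?_, ?_⟩
  · rintro y y' ⟨h1, h2⟩
    refine NerveFib_inj F S y y' h1 ?_
    have h3 : ∀ j : Fin (m.unop.len + 1),
        (Functor.comp (C := Fin (m.unop.len + 1)) y (Comma.snd F S)).obj j =
        (Functor.comp (C := Fin (m.unop.len + 1)) y' (Comma.snd F S)).obj j := fun j =>
      DFunLike.congr_fun (congrArg (fun t => (stdSimplex.objEquiv t).toOrderHom) h2) j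
    exact CategoryTheory.Functor.ext h3 (fun _ _ _ => Subsingleton.elim _ _)
  · intro x θ h
    obtain ⟨y, hy1, hy2⟩ := NerveFib_surj (J := Fin (m.unop.len + 1)) F S x
      (SimplexCategory.toCat.map (stdSimplex.objEquiv θ)).toFunctor h
    refine ⟨y, hy1, ?_⟩
    apply stdSimplex.objEquiv.injective
    ext j : 3
    exact Functor.congr_obj hy2 j

end Pool.Agent.PMC
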