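import Pool.Agent.Lib.MP_64c6ca_gt.Spec

/-!
# MP_64c6ca_gt: a natural transformation gives a homotopy of nerves
-/

set_option autoImplicit false
set_option linter.unusedVariables false

open CategoryTheory MonoidalCategory CartesianMonoidalCategory Simplicial HomotopicalAlgebra Limits
  Opposite

universe w v u

namespace Pool.Agent.PMC

open SSet SSet.modelCategoryQuillen

section

variable {C D : Type u} [SmallCategory C] [SmallCategory D] {F G : C ⥤ D} (α : F ⟶ G)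

/-- a monotone map to `Fin 2` as a functor -/
def NerveHtpy_eps {m : SimplexCategoryᵒᵖ} (e : (Δ[1] : SSet.{u}).obj m) :
    Fin (m.unop.len + 1) ⥤ Fin 2 :=
  (stdSimplex.asOrderHom e).monotone.functor

/-- the functor `Fin 2 × C ⥤ D` -/
noncomputable def NerveHtpy_K : Fin 2 × C ⥤ D :=
  Functor.uncurry.obj (ComposableArrows.mk₁ α)

/-- the simplex of the nerve of `D` -/
noncomputable def NerveHtpy_simplex {m : SimplexCategoryᵒᵖ} (H : Fin (m.unop.len + 1) ⥤ C)
    (e : (Δ[1] : SSet.{u}).obj m) : Fin (m.unop.len + 1) ⥤ D :=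
  (Functor.prod' (NerveHtpy_eps e) H) ⋙ NerveHtpy_K α

/-- the homotopy -/
noncomputable def NerveHtpy_h : nerve C ⊗ Δ[1] ⟶ nerve D where
  app m := ↾fun x => NerveHtpy_simplex α x.1 x.2
  naturality m m' f := by
    ext x
    rfl

lemma NerveHtpy_map₀ {c c' : C} (f : c ⟶ c') (a : (0 : Fin 2) ⟶ 0) :
    (NerveHtpy_K α).map ((a, f) : ((0 : Fin 2), c) ⟶ ((0 : Fin 2), c')) = F.map f := by
  obtain rfl : a = 𝟙 _ := Subsingleton.elim _ _
  have h : (ComposableArrows.mk₁ α).map (𝟙 (0 : Fin 2)) = 𝟙 _ := CategoryTheory.Functor.map_id _ _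
  show ((ComposableArrows.mk₁ α).map (𝟙 (0 : Fin 2))).app c ≫ F.map f = F.map f
  rw [h]
  exact Category.id_comp _

lemma NerveHtpy_map₁ {c c' : C} (f : c ⟶ c') (a : (1 : Fin 2) ⟶ 1) :
    (NerveHtpy_K α).map ((a, f) : ((1 : Fin 2), c) ⟶ ((1 : Fin 2), c')) = G.map f := by
  obtain rfl : a = 𝟙 _ := Subsingleton.elim _ _
  have h : (ComposableArrows.mk₁ α).map (𝟙 (1 : Fin 2)) = 𝟙 _ := CategoryTheory.Functor.map_id _ _
  show ((ComposableArrows.mk₁ α).map (𝟙 (1 : Fin 2))).app c ≫ G.map f = G.map f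
  rw [h]
  exact Category.id_comp _

lemma NerveHtpy_h₀ : ι₀ ≫ NerveHtpy_h α = nerveMap F := by
  ext m H
  exact CategoryTheory.Functor.hext (fun k => rfl)
    (fun k l f => heq_of_eq (NerveHtpy_map₀ α (H.map f) _))

lemma NerveHtpy_h₁ : ι₁ ≫ NerveHtpy_h α = nerveMap G := by
  ext m H
  exact CategoryTheory.Functor.hext (fun k => rfl)
    (fun k l f => heq_of_eq (NerveHtpy_map₁ α (H.map f) _))

end

theorem s_NerveHtpy : NerveHtpy.{u} := by
  intro C D _ _ F G α
  refine ⟨?_⟩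
  refine RelativeMorphism.Homotopy.mk (NerveHtpy_h α) (NerveHtpy_h₀ α) (NerveHtpy_h₁ α) ?_
  ext m x
  exact x.1.2.elim

end Pool.Agent.PMC
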