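import Pool.Agent.Lib.MP_64c6ca_gt.Spec

/-!
# MP_64c6ca_gt, module NervePush: the nerve of the category of elements preserves pushouts of
monomorphisms.
-/

set_option autoImplicit false

open CategoryTheory MonoidalCategory CartesianMonoidalCategory Simplicial HomotopicalAlgebra Limits
  Opposite

universe w v u

namespace Pool.Agent.PMC

open SSet SSet.modelCategoryQuillen

theorem NervePush_heq {A : Type u} [SmallCategory A] {T : Aᵒᵖ ⥤ Type u} {x x' y y' : Els T}
    (hx : x = x') (hy : y = y') (f : x ⟶ y) (f' : x' ⟶ y') (h : HEq f.1 f'.1) : HEq f f' := by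
  subst hx hy
  exact heq_of_eq (Subtype.ext (eq_of_heq h))

/-- the functor to the index category -/
def NervePush_pr {A : Type u} [SmallCategory A] {T : Aᵒᵖ ⥤ Type u} {m : ℕ}
    (H : ComposableArrows (Els T) m) : ComposableArrows A m where
  obj k := (H.obj k).a
  map f := (H.map f).1
  map_id k := congrArg Subtype.val (H.map_id k)
  map_comp f g := congrArg Subtype.val (H.map_comp f g)

/-- the lift -/
def NervePush_lift {A : Type u} [SmallCategory A] (T : Aᵒᵖ ⥤ Type u) {m : ℕ}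
    (G : ComposableArrows A m) (t : T.obj (op (G.obj (Fin.last m)))) :
    ComposableArrows (Els T) m where
  obj k := ⟨G.obj k, T.map (G.map (homOfLE (Fin.le_last k))).op t⟩
  map {k l} f := ⟨G.map f, by
    dsimp only
    rw [← Functor.map_comp_apply, ← op_comp, ← G.map_comp]
    rfl⟩
  map_id k := Subtype.ext (G.map_id k)
  map_comp f g := Subtype.ext (G.map_comp f g)

/-- simplices of the nerve of the category of elements -/
def NervePush_equiv {A : Type u} [SmallCategory A] (T : Aᵒᵖ ⥤ Type u) (m : ℕ) :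
    ComposableArrows (Els T) m ≃
      Σ G : ComposableArrows A m, T.obj (op (G.obj (Fin.last m))) where
  toFun H := ⟨NervePush_pr H, (H.obj (Fin.last m)).t⟩
  invFun x := NervePush_lift T x.1 x.2
  left_inv H := by
    have hobj : ∀ k, (NervePush_lift T (NervePush_pr H) (H.obj (Fin.last m)).t).obj k =
        H.obj k := by
      intro k
      have h := (H.map (homOfLE (Fin.le_last k))).2
      change Els.mk (H.obj k).a _ = Els.mk (H.obj k).a (H.obj k).t
      congr 1
    refine CategoryTheory.Functor.hext hobj ?_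
    intro k l f
    exact NervePush_heq (hobj k) (hobj l) _ _ HEq.rfl
  right_inv x := by
    obtain ⟨G, t⟩ := x
    refine Sigma.ext rfl (heq_of_eq ?_)
    change T.map (G.map (homOfLE (Fin.le_last (Fin.last m)))).op t = t
    have h : homOfLE (Fin.le_last (Fin.last m)) = 𝟙 _ := rfl
    rw [h, G.map_id, op_id, T.map_id]
    rfl

/-- the map of sigma types -/
def NervePush_map {A : Type u} [SmallCategory A] {T T' : Aᵒᵖ ⥤ Type u} (φ : T ⟶ T') (m : ℕ)
    (x : Σ G : ComposableArrows A m, T.obj (op (G.obj (Fin.last m)))) :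
    Σ G : ComposableArrows A m, T'.obj (op (G.obj (Fin.last m))) :=
  ⟨x.1, φ.app _ x.2⟩

theorem NervePush_nat {A : Type u} [SmallCategory A] {T T' : Aᵒᵖ ⥤ Type u} (φ : T ⟶ T') (m : ℕ)
    (H : ComposableArrows (Els T) m) :
    NervePush_equiv T' m ((nerveMap (elsMap φ)).app (op ⦋m⦌) H) =
      NervePush_map φ m (NervePush_equiv T m H) := rfl

theorem NervePush_map_inj {A : Type u} [SmallCategory A] {T T' : Aᵒᵖ ⥤ Type u} (φ : T ⟶ T')
    (m : ℕ) (h : ∀ a, Function.Injective (φ.app a)) : Function.Injective (NervePush_map φ m) := by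
  rintro ⟨G, t⟩ ⟨G', t'⟩ hx
  obtain ⟨h1, h2⟩ := Sigma.mk.inj_iff.1 hx
  subst h1
  exact Sigma.ext rfl (heq_of_eq (h _ (eq_of_heq h2)))

theorem NervePush_app_inj {A : Type u} [SmallCategory A] {T T' : Aᵒᵖ ⥤ Type u} (φ : T ⟶ T')
    (m : ℕ) (h : ∀ a, Function.Injective (φ.app a)) :
    Function.Injective ((nerveMap (elsMap φ)).app (op ⦋m⦌)) := by
  intro H H' hH
  apply (NervePush_equiv T m).injective
  apply NervePush_map_inj φ m h
  exact congrArg (NervePush_equiv T' m) hH

theorem NervePush_eq {A : Type u} [SmallCategory A] {T T' : Aᵒᵖ ⥤ Type u} (φ : T ⟶ T') (m : ℕ)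
    (G : ComposableArrows A m) (t : T.obj (op (G.obj (Fin.last m))))
    (x' : ComposableArrows (Els T') m) (h : NervePush_equiv T' m x' = ⟨G, φ.app _ t⟩) :
    (nerveMap (elsMap φ)).app (op ⦋m⦌) ((NervePush_equiv T m).symm ⟨G, t⟩) = x' := by
  apply (NervePush_equiv T' m).injective
  refine Eq.trans ?_ h.symm
  exact congrArg (NervePush_map φ m) ((NervePush_equiv T m).apply_symm_apply ⟨G, t⟩)

/-- injectivity outside the range, pushouts of types -/
theorem NervePush_types {X₁ X₂ X₃ X₄ : Type u} {t : X₁ ⟶ X₂} {r : X₂ ⟶ X₄} {l : X₁ ⟶ X₃}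
    {b : X₃ ⟶ X₄} (h : IsPushout t l r b) (x y : X₃) (hx : x ∉ Set.range l)
    (hxy : b x = b y) : x = y := by
  classical
  have w : t ≫ (↾fun _ => ULift.up False : X₂ ⟶ ULift.{u} Prop) =
      l ≫ (↾fun z => ULift.up (z = x) : X₃ ⟶ ULift.{u} Prop) := by
    ext z
    change False ↔ l z = x
    exact ⟨False.elim, fun h => hx ⟨z, h⟩⟩
  have h1 := ConcreteCategory.congr_hom (h.inr_desc _ _ w) x
  have h2 := ConcreteCategory.congr_hom (h.inr_desc _ _ w) y
  have h3 : ULift.up.{u} (x = x) = ULift.up (y = x) := by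
    refine Eq.trans h1.symm (Eq.trans ?_ h2)
    exact congrArg (h.desc (↾fun _ => ULift.up False : X₂ ⟶ ULift.{u} Prop)
      (↾fun z => ULift.up (z = x) : X₃ ⟶ ULift.{u} Prop) w) hxy
  have h4 : (x = x) = (y = x) := congrArg ULift.down h3
  exact (h4 ▸ rfl : y = x).symm

theorem s_NervePush : NervePush.{u} := by
  intro A _ T₀ T₁ T₂ P f g g' f' _ hP
  have hev : ∀ a, IsPushout (g.app a) (f.app a) (f'.app a) (g'.app a) := fun a =>
    hP.flip.map ((evaluation _ _).obj a)
  have hf : ∀ a, Function.Injective (f.app a) := fun a =>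
    (mono_iff_injective _).1 ((NatTrans.mono_iff_mono_app f).1 inferInstance a)
  have hf' : ∀ a, Function.Injective (f'.app a) := fun a =>
    Types.pushoutCocone_inr_injective_of_isColimit (hev a).flip.isColimit (hf a)
  have hpb : ∀ a, IsPullback (f.app a) (g.app a) (g'.app a) (f'.app a) := fun a =>
    Types.isPullback_of_isPushout (hev a).flip (hf a)
  have hw : elsMap f ⋙ elsMap g' = elsMap g ⋙ elsMap f' := by
    change elsMap (f ≫ g') = elsMap (g ≫ f')
    rw [hP.w]
  refine ⟨?_, ?_⟩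
  · rw [NatTrans.mono_iff_mono_app]
    rintro ⟨⟨m⟩⟩
    rw [mono_iff_injective]
    exact NervePush_app_inj f m hf
  · refine IsPushout.flip ⟨⟨?_⟩, ⟨evaluationJointlyReflectsColimits _ (fun ⟨⟨m⟩⟩ => ?_)⟩⟩
    · change nerveMap (elsMap g ⋙ elsMap f') = nerveMap (elsMap f ⋙ elsMap g')
      rw [hw]
    · refine (isColimitMapCoconePushoutCoconeEquiv _ _).2 (IsPushout.isColimit ?_)
      change IsPushout ((nerveMap (elsMap g)).app (op ⦋m⦌)) ((nerveMap (elsMap f)).app (op ⦋m⦌))
        ((nerveMap (elsMap f')).app (op ⦋m⦌)) ((nerveMap (elsMap g')).app (op ⦋m⦌))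
      have : Mono ((nerveMap (elsMap f')).app (op ⦋m⦌)) := by
        rw [mono_iff_injective]
        exact NervePush_app_inj f' m hf'
      refine Types.isPushout_of_isPullback_of_mono' ?_ ?_ ?_
      · rw [Types.isPullback_iff]
        refine ⟨?_, fun x y h => NervePush_app_inj f m hf h.2, fun x₂ x₁ h => ?_⟩
        · change (nerveMap (elsMap g ⋙ elsMap f')).app _ = (nerveMap (elsMap f ⋙ elsMap g')).app _
          rw [hw]
        · obtain ⟨⟨G, t₂⟩, hx₂⟩ : ∃ s, s = NervePush_equiv T₂ m x₂ := ⟨_, rfl⟩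
          obtain ⟨⟨G', t₁⟩, hx₁⟩ : ∃ s, s = NervePush_equiv T₁ m x₁ := ⟨_, rfl⟩
          have h1 : NervePush_map f' m ⟨G, t₂⟩ = NervePush_map g' m ⟨G', t₁⟩ := by
            rw [hx₂, hx₁]
            exact congrArg (NervePush_equiv P m) h
          obtain ⟨h2, h3⟩ := Sigma.mk.inj_iff.1 h1
          subst h2
          have h4 : f'.app _ t₂ = g'.app _ t₁ := eq_of_heq h3
          obtain ⟨t, ht₁, ht₂⟩ := Types.exists_of_isPullback (hpb _) t₁ t₂ h4.symm
          refine ⟨(NervePush_equiv T₀ m).symm ⟨G, t⟩, ?_, ?_⟩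
          · exact NervePush_eq g m G t x₂ (by rw [← hx₂, ht₂])
          · exact NervePush_eq f m G t x₁ (by rw [← hx₁, ht₁])
      · refine Set.eq_univ_iff_forall.2 fun x => ?_
        obtain ⟨⟨G, t⟩, hx⟩ : ∃ s, s = NervePush_equiv P m x := ⟨_, rfl⟩
        rcases Types.eq_or_eq_of_isPushout (hev _) t with ⟨t', ht'⟩ | ⟨t', ht'⟩
        · exact Or.inl ⟨(NervePush_equiv T₂ m).symm ⟨G, t'⟩,
            NervePush_eq f' m G t' x (by rw [← hx, ht'])⟩
        · exact Or.inr ⟨(NervePush_equiv T₁ m).symm ⟨G, t'⟩,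
            NervePush_eq g' m G t' x (by rw [← hx, ht'])⟩
      · intro x₁ y₁ hx hy h
        obtain ⟨⟨G, t₁⟩, hx₁⟩ : ∃ s, s = NervePush_equiv T₁ m x₁ := ⟨_, rfl⟩
        obtain ⟨⟨G', t₂⟩, hx₂⟩ : ∃ s, s = NervePush_equiv T₁ m y₁ := ⟨_, rfl⟩
        have h1 : NervePush_map g' m ⟨G, t₁⟩ = NervePush_map g' m ⟨G', t₂⟩ := by
          rw [hx₂, hx₁]
          exact congrArg (NervePush_equiv P m) h
        obtain ⟨h2, h3⟩ := Sigma.mk.inj_iff.1 h1
        subst h2
        have h4 : g'.app _ t₁ = g'.app _ t₂ := eq_of_heq h3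
        have h5 : t₁ = t₂ := by
          refine NervePush_types (hev _) t₁ t₂ ?_ h4
          rintro ⟨t, ht⟩
          exact hx ⟨(NervePush_equiv T₀ m).symm ⟨G, t⟩,
            NervePush_eq f m G t x₁ (by rw [← hx₁, ht])⟩
        apply (NervePush_equiv T₁ m).injective
        rw [← hx₁, ← hx₂, h5]

end Pool.Agent.PMC
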