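import Pool.Agent.Lib.MP_64c6ca_gt.Spec

/-!
# MP_64c6ca_gt: Quillen's Theorem A
-/

set_option autoImplicit false
set_option linter.unusedVariables false

open CategoryTheory MonoidalCategory CartesianMonoidalCategory Simplicial HomotopicalAlgebra Limits
  Opposite

universe w v u

namespace Pool.Agent.PMC

open SSet SSet.modelCategoryQuillen

theorem QuillenA_mono {C D : Type u} [SmallCategory C] [SmallCategory D] (F : C ⥤ D) [F.Faithful]
    (hF : Function.Injective F.obj) : Mono (nerveMap F) := by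
  rw [NatTrans.mono_iff_mono_app]
  intro k
  rw [mono_iff_injective]
  intro (x : ComposableArrows C k.unop.len) (y : ComposableArrows C k.unop.len) h
  have h' : x ⋙ F = y ⋙ F := h
  have hobj : ∀ i, x.obj i = y.obj i := fun i => hF (Functor.congr_obj h' i)
  refine CategoryTheory.Functor.ext hobj ?_
  intro i j f
  apply F.map_injective
  have := Functor.congr_hom h' f
  simpa [eqToHom_map] using this

theorem QuillenA_prodHtpy (Y : SSet.{u}) {X X' : SSet.{u}} {f g : X ⟶ X'} (h : Htpy f g) :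
    Htpy (Y ◁ f) (Y ◁ g) := by
  obtain ⟨H⟩ := h
  exact ⟨{
    h := (α_ Y X Δ[1]).hom ≫ (Y ◁ H.h)
    h₀ := by
      have e : (ι₀ : Y ⊗ X ⟶ (Y ⊗ X) ⊗ Δ[1]) ≫ (α_ Y X Δ[1]).hom = Y ◁ ι₀ := rfl
      rw [← Category.assoc, e, ← MonoidalCategory.whiskerLeft_comp, Homotopy.h₀]
      rfl
    h₁ := by
      have e : (ι₁ : Y ⊗ X ⟶ (Y ⊗ X) ⊗ Δ[1]) ≫ (α_ Y X Δ[1]).hom = Y ◁ ι₁ := rfl
      rw [← Category.assoc, e, ← MonoidalCategory.whiskerLeft_comp, Homotopy.h₁]
      rfl
    rel := by ext _ ⟨⟨_, ⟨⟩⟩, _⟩ }⟩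

theorem QuillenA_fst (h1 : WEqB.{u}) (h3 : NerveHtpy.{u}) {C : Type u} [SmallCategory C] (t : C)
    (ht : IsTerminal t) (Y : SSet.{u}) : WEq (fst Y (nerve C)) := by
  have hh : Htpy (nerveMap (𝟭 C)) (nerveMap ((Functor.const C).obj t)) :=
    h3 _ _ { app := fun X => ht.from X, naturality := fun X Y f => ht.hom_ext _ _ }
  have e1 : nerveMap (𝟭 C) = 𝟙 (nerve C) := rfl
  have e2 : nerveMap ((Functor.const C).obj t) =
      SSet.const (X := nerve C) (ComposableArrows.mk₀ t : (nerve C) _⦋0⦌) := by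
    apply NatTrans.ext
    funext k
    ext x
    refine CategoryTheory.Functor.ext (fun i => rfl) ?_
    intro i j f
    change 𝟙 t = eqToHom (rfl : t = t) ≫ 𝟙 t ≫ eqToHom (rfl : t = t)
    rw [eqToHom_refl, Category.comp_id, Category.comp_id]
  rw [e1, e2] at hh
  have h := QuillenA_prodHtpy Y hh
  refine h1.2.2.2.2.2 (fst Y (nerve C))
    (lift (𝟙 Y) (SSet.const (ComposableArrows.mk₀ t : (nerve C) _⦋0⦌))) ?_ ?_
  · refine Relation.EqvGen.symm _ _ (Relation.EqvGen.rel _ _ ?_)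
    have e3 : Y ◁ 𝟙 (nerve C) = 𝟙 (Y ⊗ nerve C) := MonoidalCategory.whiskerLeft_id _ _
    rw [e3] at h
    exact h
  · have e4 : lift (𝟙 Y) (SSet.const (ComposableArrows.mk₀ t : (nerve C) _⦋0⦌)) ≫
        fst Y (nerve C) = 𝟙 Y := rfl
    rw [e4]
    exact Relation.EqvGen.refl _

theorem QuillenA_simplex (h1 : WEqB.{u}) (h2 : NerveB.{u}) (n : ℕ) : WCtr (Δ[n] : SSet.{u}) := by
  have e : toUnit (Δ[n] : SSet.{u}) = (stdSimplex.isoNerve n).hom ≫ toUnit _ := toUnit_unique _ _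
  unfold WCtr
  rw [e]
  refine h1.2.1 _ _ (h1.1 _) ?_
  exact h2.2.1 (ULift.up (Fin.last n)) ⟨IsTerminal.ofUniqueHom
    (fun X => homOfLE (ULift.down_le.1 (Fin.le_last _))) (fun X m => Subsingleton.elim _ _)⟩

theorem QuillenA_prod (h1 : WEqB.{u}) (h2 : NerveB.{u}) (h3 : NerveHtpy.{u}) {C : Type u}
    [SmallCategory C] (t : C) (ht : IsTerminal t) (n : ℕ) : WCtr ((Δ[n] : SSet.{u}) ⊗ nerve C) := by
  have e : toUnit ((Δ[n] : SSet.{u}) ⊗ nerve C) = fst _ _ ≫ toUnit _ := toUnit_unique _ _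
  unfold WCtr
  rw [e]
  exact h1.2.1 _ _ (QuillenA_fst h1 h3 t ht _) (QuillenA_simplex h1 h2 n)

theorem QuillenA_pb {P B : SSet.{u}} (σ : P ⟶ B) (X : SSet.{u}) :
    IsPullback (σ ▷ X) (fst P X) (fst B X) σ := by
  refine ⟨⟨whiskerRight_fst _ _⟩, ⟨PullbackCone.IsLimit.mk _
    (fun c => lift c.snd (c.fst ≫ snd _ _)) ?_ ?_ ?_⟩⟩
  · intro c
    apply CartesianMonoidalCategory.hom_ext
    · have := c.condition
      simp [this]
    · simp
  · intro c
    simp
  · intro c m hm1 hm2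
    apply CartesianMonoidalCategory.hom_ext
    · simp [hm2]
    · simp [← hm1]

section comma

variable {A Z : Type u} [SmallCategory A] [SmallCategory Z] (F : A ⥤ Z)

theorem QuillenA_commaFst (h2 : NerveB.{u}) : WEq (nerveMap (Comma.fst F (𝟭 Z))) := by
  let G : A ⥤ Comma F (𝟭 Z) :=
    { obj := fun a => { left := a, right := F.obj a, hom := 𝟙 _ }
      map := fun f => { left := f, right := F.map f }
      map_id := fun a => by ext <;> simp
      map_comp := fun f g => by ext <;> simp }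
  refine h2.1 (Comma.fst F (𝟭 Z)) G ?_ ?_
  · refine Relation.EqvGen.rel _ _ ⟨{ app := fun X => { left := 𝟙 _, right := X.hom }, naturality := ?_ }⟩
    intro X Y f
    ext
    · simp [G]
    · simp [G]
  · exact Relation.EqvGen.refl _

theorem QuillenA_commaS (h2 : NerveB.{u}) (n : ℕ) (S : Fin (n + 1) ⥤ Z)
    (h : WCtr (nerve (CostructuredArrow F (S.obj (Fin.last n))))) : WCtr (nerve (Comma F S)) := by
  let Q : Comma F S ⥤ CostructuredArrow F (S.obj (Fin.last n)) :=
    { obj := fun X => CostructuredArrow.mk (X.hom ≫ S.map (homOfLE (Fin.le_last X.right)))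
      map := fun {X Y} f => CostructuredArrow.homMk f.left (by
        have := f.w
        simp only [CostructuredArrow.mk_left, CostructuredArrow.mk_hom_eq_self]
        rw [← Category.assoc, this, Category.assoc, ← S.map_comp]
        rfl)
      map_id := fun X => by ext; simp
      map_comp := fun f g => by ext; simp }
  let R : CostructuredArrow F (S.obj (Fin.last n)) ⥤ Comma F S :=
    { obj := fun X => { left := X.left, right := Fin.last n, hom := X.hom }
      map := fun {X Y} f => { left := f.left, right := 𝟙 _ }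
      map_id := fun X => by
        ext
        · simp
        · exact Subsingleton.elim _ _
      map_comp := fun f g => by
        ext
        · simp
        · exact Subsingleton.elim _ _ }
  refine (h2.2.2 Q ?_).2 h
  refine h2.1 Q R ?_ ?_
  · refine Relation.EqvGen.symm _ _ (Relation.EqvGen.rel _ _ ⟨{ app := fun X => { left := 𝟙 _, right := homOfLE (Fin.le_last X.right) }, naturality := ?_ }⟩)
    intro X Y f
    ext
    · simp [Q, R]
    · exact Subsingleton.elim _ _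
  · refine Relation.EqvGen.rel _ _ ⟨{ app := fun X => CostructuredArrow.homMk (𝟙 _) ?_, naturality := ?_ }⟩
    · simp [Q, R]
    · intro X Y f
      ext
      simp [Q, R]

end comma

theorem s_QuillenA (h1 : WEqB.{u}) (h2 : NerveB.{u}) (h3 : NerveHtpy.{u}) (h4 : NerveFib.{u})
    (h5 : Loc.{u}) : QuillenA.{u} := by
  intro A Z _ _ F hF
  -- it is enough to treat the projection of the comma category
  suffices hπ : WEq (nerveMap (Comma.snd F (𝟭 Z))) by
    have hh : Htpy (nerveMap (Comma.fst F (𝟭 Z) ⋙ F)) (nerveMap (Comma.snd F (𝟭 Z) ⋙ 𝟭 Z)) :=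
      h3 _ _ (Comma.natTrans F (𝟭 Z))
    have e1 : WEq (nerveMap (Comma.fst F (𝟭 Z) ⋙ F)) := (h1.2.2.2.2.1 _ _ hh).2 hπ
    exact h1.2.2.1 (nerveMap (Comma.fst F (𝟭 Z))) (nerveMap F) (QuillenA_commaFst F h2) e1
  -- the factorization
  let ι : nerve (Comma F (𝟭 Z)) ⟶ nerve (WithTerminal (Comma F (𝟭 Z))) :=
    nerveMap WithTerminal.incl
  have hι : Mono ι := QuillenA_mono _ (fun a b h => by injection h)
  let j : nerve (Comma F (𝟭 Z)) ⟶ nerve Z ⊗ nerve (WithTerminal (Comma F (𝟭 Z))) :=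
    lift (nerveMap (Comma.snd F (𝟭 Z))) ι
  have hj2 : j ≫ snd _ _ = ι := lift_snd _ _
  have hj1 : j ≫ fst _ _ = nerveMap (Comma.snd F (𝟭 Z)) := lift_fst _ _
  have : Mono (j ≫ snd _ _) := by rw [hj2]; exact hι
  have : Mono j := mono_of_mono j (snd _ _)
  rw [← hj1]
  refine h1.2.1 _ _ ?_ (QuillenA_fst h1 h3 _ WithTerminal.starTerminal _)
  refine h5 (fst _ _) j ?_
  intro n σ
  obtain ⟨S, s, e, hpb⟩ := h4 F n σ
  have hE : WCtr (nerve (Comma F S)) := QuillenA_commaS F h2 n S (hF _)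
  let X := nerve (WithTerminal (Comma F (𝟭 Z)))
  have hC : WCtr ((Δ[n] : SSet.{u}) ⊗ X) :=
    QuillenA_prod h1 h2 h3 _ WithTerminal.starTerminal n
  have hpb1 : IsPullback (σ ▷ X) (fst Δ[n] X) (fst (nerve Z) X) σ :=
    QuillenA_pb σ X
  refine ⟨nerve (Comma F S), Δ[n] ⊗ X, e, σ ▷ X, fst _ _, lift s (e ≫ ι), hpb1, ?_, ?_⟩
  · have e6 : lift s (e ≫ ι) ≫ fst Δ[n] X = s := lift_fst _ _
    refine IsPullback.of_bot ?_ ?_ hpb1
    · rw [hj1, e6]
      exact hpb
    · have e7 : e ≫ j = lift (e ≫ nerveMap (Comma.snd F (𝟭 Z))) (e ≫ ι) := comp_lift _ _ _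
      have e8 : lift s (e ≫ ι) ≫ σ ▷ X = lift (s ≫ σ) (e ≫ ι) := lift_whiskerRight _ _ _
      rw [e7, e8, hpb.w]
  · refine h1.2.2.2.1 _ (toUnit _) hC ?_
    have e5 : lift s (e ≫ ι) ≫ toUnit (Δ[n] ⊗ X) = toUnit _ := toUnit_unique _ _
    rw [e5]
    exact hE

end Pool.Agent.PMC
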