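import Pool.Agent.Lib.MP_64c6ca_gt.Spec

/-!
# MP_64c6ca_gt: module RestTriv
-/

set_option autoImplicit false
set_option linter.unusedVariables false

open CategoryTheory MonoidalCategory CartesianMonoidalCategory Simplicial HomotopicalAlgebra Limits
  Opposite

universe w v u

namespace Pool.Agent.PMC

open SSet SSet.modelCategoryQuillen

/-- a homotopy from a map out of `X ⊗ Δ[1]` -/
theorem RestTriv_htpy {X Y : SSet.{u}} {f g : X ⟶ Y} (h : X ⊗ Δ[1] ⟶ Y) (h0 : ι₀ ≫ h = f)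
    (h1 : ι₁ ≫ h = g) : Htpy f g :=
  ⟨{ h := h
     h₀ := h0
     h₁ := h1
     rel := by
      ext n ⟨⟨x, hx⟩, y⟩
      exact absurd hx (by simp) }⟩

theorem RestTriv_refl {X Y : SSet.{u}} (f : X ⟶ Y) : Htpy f f :=
  RestTriv_htpy (fst _ _ ≫ f) rfl rfl

/-- exchange of the two variables -/
noncomputable def RestTriv_sw {X B K : SSet.{u}} (f : X ⟶ (ihom B).obj K) :
    B ⟶ (ihom X).obj K :=
  MonoidalClosed.curry ((β_ X B).hom ≫ MonoidalClosed.uncurry f)

theorem RestTriv_sw_sw {X B K : SSet.{u}} (f : X ⟶ (ihom B).obj K) :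
    RestTriv_sw (RestTriv_sw f) = f := by
  unfold RestTriv_sw
  rw [MonoidalClosed.uncurry_curry, ← Category.assoc, SymmetricCategory.symmetry,
    Category.id_comp, MonoidalClosed.curry_uncurry]

/-- `(x, (b, t)) ↦ (b, (x, t))` -/
noncomputable def RestTriv_perm (X B T : SSet.{u}) : X ⊗ (B ⊗ T) ⟶ B ⊗ (X ⊗ T) :=
  lift (snd X (B ⊗ T) ≫ fst B T) (lift (fst X (B ⊗ T)) (snd X (B ⊗ T) ≫ snd B T))

theorem RestTriv_perm0 (X B : SSet.{u}) :
    (X ◁ (ι₀ : B ⟶ B ⊗ Δ[1])) ≫ RestTriv_perm X B Δ[1] =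
      (β_ X B).hom ≫ (B ◁ (ι₀ : X ⟶ X ⊗ Δ[1])) := by
  rfl

theorem RestTriv_perm1 (X B : SSet.{u}) :
    (X ◁ (ι₁ : B ⟶ B ⊗ Δ[1])) ≫ RestTriv_perm X B Δ[1] =
      (β_ X B).hom ≫ (B ◁ (ι₁ : X ⟶ X ⊗ Δ[1])) := by
  rfl

theorem RestTriv_sw_htpy {X B K : SSet.{u}} {f g : X ⟶ (ihom B).obj K} (h : Htpy f g) :
    Htpy (RestTriv_sw f) (RestTriv_sw g) := by
  obtain ⟨H⟩ := h
  refine RestTriv_htpy (MonoidalClosed.curry (RestTriv_perm X B Δ[1] ≫
    MonoidalClosed.uncurry H.h)) ?_ ?_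
  · rw [← MonoidalClosed.curry_natural_left, ← Category.assoc, RestTriv_perm0, Category.assoc,
      ← MonoidalClosed.uncurry_natural_left, H.h₀]
    rfl
  · rw [← MonoidalClosed.curry_natural_left, ← Category.assoc, RestTriv_perm1, Category.assoc,
      ← MonoidalClosed.uncurry_natural_left, H.h₁]
    rfl

theorem RestTriv_of_sw_htpy {X B K : SSet.{u}} {f g : X ⟶ (ihom B).obj K}
    (h : Htpy (RestTriv_sw f) (RestTriv_sw g)) : Htpy f g := by
  have := RestTriv_sw_htpy h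
  rwa [RestTriv_sw_sw, RestTriv_sw_sw] at this

theorem RestTriv_sw_pre {X A B K : SSet.{u}} (j : A ⟶ B) (f : X ⟶ (ihom B).obj K) :
    RestTriv_sw (f ≫ (MonoidalClosed.pre j).app K) = j ≫ RestTriv_sw f := by
  unfold RestTriv_sw
  have e : MonoidalClosed.uncurry (f ≫ (MonoidalClosed.pre j).app K) =
      (j ▷ X) ≫ MonoidalClosed.uncurry f := by
    apply MonoidalClosed.curry_injective
    rw [MonoidalClosed.curry_uncurry, ← MonoidalClosed.curry_pre_app,
      MonoidalClosed.curry_uncurry]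
  rw [e, ← MonoidalClosed.curry_natural_left, ← Category.assoc, ← Category.assoc,
    BraidedCategory.braiding_naturality_right]

/-- lifting along a fibration up to homotopy can be made strict -/
theorem RestTriv_strict (h1 : Hle.{u}) {E S : SSet.{u}} (q : E ⟶ S) [Fibration q] (s' : S ⟶ E)
    (H : Htpy (s' ≫ q) (𝟙 S)) : ∃ s : S ⟶ E, s ≫ q = 𝟙 S := by
  obtain ⟨H⟩ := H
  obtain ⟨t, ht0, ht1, ht2⟩ := h1 (⊥ : S.Subcomplex).ι q s'
    (((⊥ : S.Subcomplex).ι ▷ Δ[1]) ≫ fst _ _ ≫ s') H.h (by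
      rw [← Category.assoc, ι₀_comp, Category.assoc, ← Category.assoc ι₀, ι₀_fst,
        Category.id_comp]) H.h₀.symm (by
      ext n ⟨⟨x, hx⟩, y⟩
      exact absurd hx (by simp))
  refine ⟨ι₁ ≫ t, ?_⟩
  rw [Category.assoc, ht2, H.h₁]

theorem s_RestTriv (h1 : Hle.{u}) (h2 : HtpyB.{u}) (h3 : Dold.{u}) : RestTriv.{u} := by
  intro A B j hj hw K hK
  let q : (ihom B).obj K ⟶ (ihom A).obj K := (MonoidalClosed.pre j).app K
  have hq : Fibration q := inferInstance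
  -- a section up to homotopy
  obtain ⟨b, hb⟩ := (hw ((ihom ((ihom A).obj K)).obj K)).1
    (RestTriv_sw (𝟙 ((ihom A).obj K)))
  have hs' : Htpy (RestTriv_sw b ≫ q) (𝟙 _) := by
    apply RestTriv_of_sw_htpy
    have e : RestTriv_sw (RestTriv_sw b ≫ q) = j ≫ b := by
      rw [RestTriv_sw_pre, RestTriv_sw_sw]
    rw [e]
    exact hb
  obtain ⟨s, hs⟩ := RestTriv_strict h1 q (RestTriv_sw b) hs'
  have hqs : Htpy (q ≫ s) (𝟙 _) := by
    apply RestTriv_of_sw_htpy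
    apply (hw ((ihom ((ihom B).obj K)).obj K)).2
    have e1 : j ≫ RestTriv_sw (q ≫ s) = RestTriv_sw q := by
      rw [← RestTriv_sw_pre]
      congr 1
      rw [Category.assoc]
      change q ≫ s ≫ q = q
      rw [hs, Category.comp_id]
    have e2 : j ≫ RestTriv_sw (𝟙 ((ihom B).obj K)) = RestTriv_sw q := by
      rw [← RestTriv_sw_pre, Category.id_comp]
    rw [e1, e2]
    exact RestTriv_refl _
  exact h3 q s hs hqs

end Pool.Agent.PMC
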