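import Pool.Agent.Lib.MP_64c6ca_gt.Spec

/-!
# MP_64c6ca_gt: module Sq
-/

set_option autoImplicit false

open CategoryTheory MonoidalCategory CartesianMonoidalCategory Simplicial HomotopicalAlgebra Limits
  Opposite

universe w v u

namespace Pool.Agent.PMC

open SSet SSet.modelCategoryQuillen

/-- two maps out of `(X ⨿ Y) ⊗ Z` agree if they agree on both parts -/
theorem Sq_ext {X Y Z E : SSet.{u}} (a b : (X ⨿ Y) ⊗ Z ⟶ E)
    (h1 : ((coprod.inl : X ⟶ X ⨿ Y) ▷ Z) ≫ a = ((coprod.inl : X ⟶ X ⨿ Y) ▷ Z) ≫ b)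
    (h2 : ((coprod.inr : Y ⟶ X ⨿ Y) ▷ Z) ≫ a = ((coprod.inr : Y ⟶ X ⨿ Y) ▷ Z) ≫ b) :
    a = b := by
  have key : MonoidalClosed.curry ((β_ Z (X ⨿ Y)).hom ≫ a) =
      MonoidalClosed.curry ((β_ Z (X ⨿ Y)).hom ≫ b) := by
    apply coprod.hom_ext
    · rw [← MonoidalClosed.curry_natural_left, ← MonoidalClosed.curry_natural_left,
        BraidedCategory.braiding_naturality_right_assoc,
        BraidedCategory.braiding_naturality_right_assoc, h1]
    · rw [← MonoidalClosed.curry_natural_left, ← MonoidalClosed.curry_natural_left,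
        BraidedCategory.braiding_naturality_right_assoc,
        BraidedCategory.braiding_naturality_right_assoc, h2]
  have h := MonoidalClosed.curry_injective key
  exact (cancel_epi _).mp h

/-- the map out of `(X ⨿ Y) ⊗ Z` with given components -/
theorem Sq_desc {X Y Z E : SSet.{u}} (f : X ⊗ Z ⟶ E) (g : Y ⊗ Z ⟶ E) :
    ∃ a : (X ⨿ Y) ⊗ Z ⟶ E, ((coprod.inl : X ⟶ X ⨿ Y) ▷ Z) ≫ a = f ∧
      ((coprod.inr : Y ⟶ X ⨿ Y) ▷ Z) ≫ a = g := by
  refine ⟨(β_ (X ⨿ Y) Z).hom ≫ MonoidalClosed.uncurry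
    (coprod.desc (MonoidalClosed.curry ((β_ Z X).hom ≫ f))
      (MonoidalClosed.curry ((β_ Z Y).hom ≫ g))), ?_, ?_⟩
  · rw [BraidedCategory.braiding_naturality_left_assoc, ← MonoidalClosed.uncurry_natural_left,
      coprod.inl_desc, MonoidalClosed.uncurry_curry, SymmetricCategory.symmetry_assoc]
  · rw [BraidedCategory.braiding_naturality_left_assoc, ← MonoidalClosed.uncurry_natural_left,
      coprod.inr_desc, MonoidalClosed.uncurry_curry, SymmetricCategory.symmetry_assoc]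

theorem s_Sq (h1 : Hle.{u}) (h2 : MonoI.{u}) : Sq.{u} := by
  intro X E S p _ e h₀ h₁ c e0 e1 ep hp0 hp1
  have : Mono (coprod.desc (ι₀ : X ⟶ X ⊗ Δ[1]) ι₁) := h2 X
  obtain ⟨h, ha, hb⟩ := Sq_desc h₀ h₁
  obtain ⟨t, t1, t2, t3⟩ := h1 (coprod.desc (ι₀ : X ⟶ X ⊗ Δ[1]) ι₁) p e h c
    (by
      apply coprod.hom_ext
      · rw [coprod.inl_desc_assoc, e0, ← ha]; rfl
      · rw [coprod.inr_desc_assoc, e1, ← hb]; rfl)
    ep
    (by
      apply Sq_ext
      · rw [reassoc_of% ha, hp0, ← comp_whiskerRight_assoc, coprod.inl_desc]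
      · rw [reassoc_of% hb, hp1, ← comp_whiskerRight_assoc, coprod.inr_desc])
  refine ⟨t, t1, ?_, ?_, t3⟩
  · rw [← ha, ← t2, ← comp_whiskerRight_assoc, coprod.inl_desc]
  · rw [← hb, ← t2, ← comp_whiskerRight_assoc, coprod.inr_desc]

end Pool.Agent.PMC
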