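import Pool.Agent.Lib.MP_64c6ca_gt.Spec

/-!
# MP_64c6ca_gt, module TCofWEq
-/

set_option autoImplicit false

open CategoryTheory MonoidalCategory CartesianMonoidalCategory Simplicial HomotopicalAlgebra Limits
  Opposite

universe w v u

namespace Pool.Agent.PMC

open SSet SSet.modelCategoryQuillen

theorem TCofWEq_ext {A B U V K : SSet.{u}} (j : A ⟶ B)
    (hj : (MorphismProperty.monomorphisms SSet.{u}).rlp ((MonoidalClosed.pre j).app K))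
    (m : U ⟶ V) [Mono m] (x : B ⊗ U ⟶ K) (y : A ⊗ V ⟶ K) (h : (j ▷ U) ≫ x = (A ◁ m) ≫ y) :
    ∃ t : B ⊗ V ⟶ K, (B ◁ m) ≫ t = x ∧ (j ▷ V) ≫ t = y := by
  have hl : HasLiftingProperty m ((MonoidalClosed.pre j).app K) :=
    hj m (MorphismProperty.monomorphisms.infer_property m)
  have comm : CommSq (MonoidalClosed.curry x) m ((MonoidalClosed.pre j).app K)
      (MonoidalClosed.curry y) := ⟨by
    rw [MonoidalClosed.curry_pre_app, h, MonoidalClosed.curry_natural_left]⟩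
  refine ⟨MonoidalClosed.uncurry comm.lift, ?_, ?_⟩
  · rw [← MonoidalClosed.uncurry_natural_left, comm.fac_left, MonoidalClosed.uncurry_curry]
  · rw [← MonoidalClosed.uncurry_pre_app, comm.fac_right, MonoidalClosed.uncurry_curry]

theorem TCofWEq_homExt {A U V L : SSet.{u}} (f g : A ⊗ (U ⨿ V) ⟶ L)
    (h1 : (A ◁ coprod.inl) ≫ f = (A ◁ coprod.inl) ≫ g)
    (h2 : (A ◁ coprod.inr) ≫ f = (A ◁ coprod.inr) ≫ g) : f = g := by
  apply MonoidalClosed.curry_injective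
  apply coprod.hom_ext
  · rw [← MonoidalClosed.curry_natural_left, ← MonoidalClosed.curry_natural_left, h1]
  · rw [← MonoidalClosed.curry_natural_left, ← MonoidalClosed.curry_natural_left, h2]

theorem TCofWEq_iota0 (B : SSet.{u}) :
    (ι₀ : B ⟶ B ⊗ Δ[1]) ≫ (B ◁ (λ_ (Δ[1] : SSet.{u})).inv) =
      (ρ_ B).inv ≫ (B ◁ (ι₀ : 𝟙_ SSet.{u} ⟶ 𝟙_ SSet.{u} ⊗ Δ[1])) := rfl

theorem TCofWEq_iota1 (B : SSet.{u}) :
    (ι₁ : B ⟶ B ⊗ Δ[1]) ≫ (B ◁ (λ_ (Δ[1] : SSet.{u})).inv) =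
      (ρ_ B).inv ≫ (B ◁ (ι₁ : 𝟙_ SSet.{u} ⟶ 𝟙_ SSet.{u} ⊗ Δ[1])) := rfl

theorem s_TCofWEq (h1 : Hle.{u}) (h2 : MonoI.{u}) (h3 : RestTriv.{u}) : TCofWEq.{u} := by
  intro A B j _ hj K L p _ _
  have hK : KanComplex K := isFibrant_of_fibration p
  refine ⟨fun {a b} sq => ?_⟩
  -- step 1
  obtain ⟨t₁, -, ht₁⟩ := TCofWEq_ext (U := ⊥_ SSet.{u}) (V := 𝟙_ SSet.{u}) j (h3 j hj K)
    (initial.to _) (MonoidalClosed.uncurry (initial.to _)) ((ρ_ A).hom ≫ a) (by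
      apply MonoidalClosed.curry_injective
      exact initial.hom_ext _ _)
  let b₁ : B ⟶ K := (ρ_ B).inv ≫ t₁
  have hb₁ : j ≫ b₁ = a := by
    show j ≫ (ρ_ B).inv ≫ t₁ = a
    rw [rightUnitor_inv_naturality_assoc, ht₁, Iso.inv_hom_id_assoc]
  -- step 2
  have := h2 (𝟙_ SSet.{u})
  obtain ⟨t₂, hx, hy⟩ := TCofWEq_ext (U := 𝟙_ SSet.{u} ⨿ 𝟙_ SSet.{u})
    (V := 𝟙_ SSet.{u} ⊗ Δ[1]) j (h3 j hj L)
    (coprod.desc ι₀ ι₁)
    (MonoidalClosed.uncurry (coprod.desc (MonoidalClosed.curry ((ρ_ B).hom ≫ b₁ ≫ p))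
      (MonoidalClosed.curry ((ρ_ B).hom ≫ b)))) (fst _ _ ≫ a ≫ p) (by
      apply TCofWEq_homExt
      · rw [whisker_exchange_assoc, ← MonoidalClosed.uncurry_natural_left, coprod.inl_desc,
          MonoidalClosed.uncurry_curry, rightUnitor_naturality_assoc, reassoc_of% hb₁,
          ← whiskerLeft_comp_assoc, coprod.inl_desc, whiskerLeft_fst_assoc]
        rfl
      · rw [whisker_exchange_assoc, ← MonoidalClosed.uncurry_natural_left, coprod.inr_desc,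
          MonoidalClosed.uncurry_curry, rightUnitor_naturality_assoc, ← sq.w,
          ← whiskerLeft_comp_assoc, coprod.inr_desc, whiskerLeft_fst_assoc]
        rfl)
  let c : B ⊗ Δ[1] ⟶ L := (B ◁ (λ_ (Δ[1] : SSet.{u})).inv) ≫ t₂
  have hc0 : ι₀ ≫ c = b₁ ≫ p := by
    show ι₀ ≫ (B ◁ (λ_ (Δ[1] : SSet.{u})).inv) ≫ t₂ = _
    rw [reassoc_of% (TCofWEq_iota0 B)]
    have h4 : (B ◁ (ι₀ : 𝟙_ SSet.{u} ⟶ 𝟙_ SSet.{u} ⊗ Δ[1])) =
        (B ◁ coprod.inl) ≫ (B ◁ coprod.desc ι₀ ι₁) := by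
      rw [← whiskerLeft_comp, coprod.inl_desc]
    rw [h4, Category.assoc, hx, ← MonoidalClosed.uncurry_natural_left, coprod.inl_desc,
      MonoidalClosed.uncurry_curry, Iso.inv_hom_id_assoc]
  have hc1 : ι₁ ≫ c = b := by
    show ι₁ ≫ (B ◁ (λ_ (Δ[1] : SSet.{u})).inv) ≫ t₂ = _
    rw [reassoc_of% (TCofWEq_iota1 B)]
    have h4 : (B ◁ (ι₁ : 𝟙_ SSet.{u} ⟶ 𝟙_ SSet.{u} ⊗ Δ[1])) =
        (B ◁ coprod.inr) ≫ (B ◁ coprod.desc ι₀ ι₁) := by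
      rw [← whiskerLeft_comp, coprod.inr_desc]
    rw [h4, Category.assoc, hx, ← MonoidalClosed.uncurry_natural_left, coprod.inr_desc,
      MonoidalClosed.uncurry_curry, Iso.inv_hom_id_assoc]
  have hcj : (j ▷ Δ[1]) ≫ c = fst _ _ ≫ a ≫ p := by
    show (j ▷ Δ[1]) ≫ (B ◁ (λ_ (Δ[1] : SSet.{u})).inv) ≫ t₂ = _
    rw [← whisker_exchange_assoc, hy, whiskerLeft_fst_assoc]
  -- step 3
  obtain ⟨t, ht0, htj, htp⟩ := h1 j p b₁ (fst _ _ ≫ a) c (by rw [hb₁]; rfl) hc0.symm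
    (by rw [Category.assoc, hcj])
  refine ⟨⟨⟨ι₁ ≫ t, ?_, ?_⟩⟩⟩
  · rw [← ι₁_comp_assoc, htj]
    rfl
  · rw [Category.assoc, htp, hc1]

end Pool.Agent.PMC
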