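import Pool.Agent.Lib.MP_64c6ca_gt.Spec

/-!
# MP_64c6ca_gt: basic properties of weak equivalences
-/

set_option autoImplicit false

open CategoryTheory MonoidalCategory CartesianMonoidalCategory Simplicial HomotopicalAlgebra Limits
  Opposite

universe w v u

namespace Pool.Agent.PMC

open SSet SSet.modelCategoryQuillen

theorem WEqB_mk {X Y : SSet.{u}} {f g : X ⟶ Y} (h : X ⊗ Δ[1] ⟶ Y) (h0 : ι₀ ≫ h = f)
    (h1 : ι₁ ≫ h = g) : Htpy f g :=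
  ⟨{ h := h
     h₀ := h0
     h₁ := h1
     rel := by
      ext n ⟨⟨x, hx⟩, y⟩
      exact hx.elim }⟩

theorem WEqB_refl {X Y : SSet.{u}} (f : X ⟶ Y) : Htpy f f :=
  WEqB_mk (fst _ _ ≫ f) (by rw [← Category.assoc, ι₀_fst, Category.id_comp])
    (by rw [← Category.assoc, ι₁_fst, Category.id_comp])

theorem WEqB_pre {X Y Z : SSet.{u}} (k : Z ⟶ X) {f g : X ⟶ Y} (H : Htpy f g) :
    Htpy (k ≫ f) (k ≫ g) := by
  obtain ⟨H⟩ := H
  refine WEqB_mk ((k ▷ Δ[1]) ≫ H.h) ?_ ?_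
  · rw [← Category.assoc, ι₀_comp, Category.assoc, Homotopy.h₀]
  · rw [← Category.assoc, ι₁_comp, Category.assoc, Homotopy.h₁]

theorem WEqB_post {X Y Z : SSet.{u}} {f g : X ⟶ Y} (H : Htpy f g) (k : Y ⟶ Z) :
    Htpy (f ≫ k) (g ≫ k) := by
  obtain ⟨H⟩ := H
  refine WEqB_mk (H.h ≫ k) ?_ ?_
  · rw [← Category.assoc, Homotopy.h₀]
  · rw [← Category.assoc, Homotopy.h₁]

theorem WEqB_symm (h1 : HtpyB.{u}) {X K : SSet.{u}} [KanComplex K] {f g : X ⟶ K}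
    (H : Htpy f g) : Htpy g f :=
  (h1 (f := f) (g := g) (h := g)).1 H

theorem WEqB_trans (h1 : HtpyB.{u}) {X K : SSet.{u}} [KanComplex K] {f g h : X ⟶ K}
    (H : Htpy f g) (H' : Htpy g h) : Htpy f h :=
  (h1 (f := f) (g := g) (h := h)).2 H H'

theorem WEqB_gen (h1 : HtpyB.{u}) {X Y K : SSet.{u}} [KanComplex K] {x y : X ⟶ Y}
    (H : Relation.EqvGen Htpy x y) (b : Y ⟶ K) : Htpy (x ≫ b) (y ≫ b) := by
  induction H with
  | rel x y h => exact WEqB_post h b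
  | refl x => exact WEqB_refl _
  | symm x y _ ih => exact WEqB_symm h1 ih
  | trans x y z _ _ ih1 ih2 => exact WEqB_trans h1 ih1 ih2

theorem WEqB_iso {X Y : SSet.{u}} (f : X ⟶ Y) [IsIso f] : WEq f := by
  intro K _
  refine ⟨fun a => ⟨inv f ≫ a, ?_⟩, fun b b' h => ?_⟩
  · rw [IsIso.hom_inv_id_assoc]
    exact WEqB_refl _
  · have := WEqB_pre (inv f) h
    rwa [IsIso.inv_hom_id_assoc, IsIso.inv_hom_id_assoc] at this

theorem WEqB_comp (h1 : HtpyB.{u}) {X Y Z : SSet.{u}} (f : X ⟶ Y) (g : Y ⟶ Z) (hf : WEq f)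
    (hg : WEq g) : WEq (f ≫ g) := by
  intro K _
  refine ⟨fun a => ?_, fun b b' h => ?_⟩
  · obtain ⟨b, hb⟩ := (hf K).1 a
    obtain ⟨c, hc⟩ := (hg K).1 b
    refine ⟨c, ?_⟩
    rw [Category.assoc]
    exact WEqB_trans h1 (WEqB_pre f hc) hb
  · rw [Category.assoc, Category.assoc] at h
    exact (hg K).2 _ _ ((hf K).2 _ _ h)

theorem WEqB_of_left {X Y Z : SSet.{u}} (f : X ⟶ Y) (g : Y ⟶ Z)
    (hf : WEq f) (hfg : WEq (f ≫ g)) : WEq g := by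
  intro K _
  refine ⟨fun a => ?_, fun b b' h => ?_⟩
  · obtain ⟨c, hc⟩ := (hfg K).1 (f ≫ a)
    rw [Category.assoc] at hc
    exact ⟨c, (hf K).2 _ _ hc⟩
  · apply (hfg K).2
    rw [Category.assoc, Category.assoc]
    exact WEqB_pre f h

theorem WEqB_of_right (h1 : HtpyB.{u}) {X Y Z : SSet.{u}} (f : X ⟶ Y) (g : Y ⟶ Z)
    (hg : WEq g) (hfg : WEq (f ≫ g)) : WEq f := by
  intro K _
  refine ⟨fun a => ?_, fun b b' h => ?_⟩
  · obtain ⟨c, hc⟩ := (hfg K).1 a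
    rw [Category.assoc] at hc
    exact ⟨g ≫ c, hc⟩
  · obtain ⟨c, hc⟩ := (hg K).1 b
    obtain ⟨c', hc'⟩ := (hg K).1 b'
    have h2 : Htpy c c' := by
      apply (hfg K).2
      rw [Category.assoc, Category.assoc]
      exact WEqB_trans h1 (WEqB_pre f hc)
        (WEqB_trans h1 h (WEqB_symm h1 (WEqB_pre f hc')))
    exact WEqB_trans h1 (WEqB_symm h1 hc) (WEqB_trans h1 (WEqB_pre g h2) hc')

theorem WEqB_htpy (h1 : HtpyB.{u}) {X Y : SSet.{u}} (f g : X ⟶ Y) (h : Htpy f g) (hf : WEq f) :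
    WEq g := by
  intro K _
  refine ⟨fun a => ?_, fun b b' h' => ?_⟩
  · obtain ⟨b, hb⟩ := (hf K).1 a
    exact ⟨b, WEqB_trans h1 (WEqB_symm h1 (WEqB_post h b)) hb⟩
  · exact (hf K).2 _ _ (WEqB_trans h1 (WEqB_post h b)
      (WEqB_trans h1 h' (WEqB_symm h1 (WEqB_post h b'))))

theorem WEqB_htpy' (h1 : HtpyB.{u}) {X Y : SSet.{u}} (f g : X ⟶ Y) (h : Htpy f g) (hg : WEq g) :
    WEq f := by
  intro K _
  refine ⟨fun a => ?_, fun b b' h' => ?_⟩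
  · obtain ⟨b, hb⟩ := (hg K).1 a
    exact ⟨b, WEqB_trans h1 (WEqB_post h b) hb⟩
  · exact (hg K).2 _ _ (WEqB_trans h1 (WEqB_symm h1 (WEqB_post h b))
      (WEqB_trans h1 h' (WEqB_post h b')))

theorem s_WEqB (h1 : HtpyB.{u}) : WEqB.{u} := by
  refine ⟨fun f _ => WEqB_iso f, fun f g => WEqB_comp h1 f g, fun f g => WEqB_of_left f g,
    fun f g => WEqB_of_right h1 f g, fun f g h => ⟨WEqB_htpy h1 f g h, WEqB_htpy' h1 f g h⟩, ?_⟩
  intro X Y f g hfg hgf K _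
  refine ⟨fun a => ⟨g ≫ a, ?_⟩, fun b b' h => ?_⟩
  · have := WEqB_gen h1 hfg a
    rwa [Category.assoc, Category.id_comp] at this
  · have h2 := WEqB_gen h1 hgf b
    have h3 := WEqB_gen h1 hgf b'
    rw [Category.assoc, Category.id_comp] at h2 h3
    exact WEqB_trans h1 (WEqB_symm h1 h2) (WEqB_trans h1 (WEqB_pre g h) h3)

end Pool.Agent.PMC
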