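import Pool.Agent.Lib.MP_64c6ca_gt.p_Sq

/-!
# MP_64c6ca_gt: module WEqofTC
-/

set_option autoImplicit false

open CategoryTheory MonoidalCategory CartesianMonoidalCategory Simplicial HomotopicalAlgebra Limits
  Opposite

universe w v u

namespace Pool.Agent.PMC

open SSet SSet.modelCategoryQuillen

/-- a homotopy from a map out of `X ⊗ Δ[1]` -/
theorem WEqofTC_htpy {X Y : SSet.{u}} {f g : X ⟶ Y} (h : X ⊗ Δ[1] ⟶ Y) (h0 : ι₀ ≫ h = f)
    (h1 : ι₁ ≫ h = g) : Htpy f g :=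
  ⟨{ h := h
     h₀ := h0
     h₁ := h1
     rel := by
      ext n ⟨⟨x, hx⟩, y⟩
      exact absurd hx (by simp) }⟩

theorem WEqofTC_refl {X Y : SSet.{u}} (f : X ⟶ Y) : Htpy f f :=
  WEqofTC_htpy (fst _ _ ≫ f) rfl rfl

/-- the vertex `0` times `X`, on the left -/
theorem WEqofTC_zero (X : SSet.{u}) :
    ((ι₀ : 𝟙_ SSet.{u} ⟶ _) ≫ (λ_ Δ[1]).hom) ▷ X ≫ (β_ Δ[1] X).hom = (λ_ X).hom ≫ ι₀ := by
  rfl

theorem WEqofTC_one (X : SSet.{u}) :
    ((ι₁ : 𝟙_ SSet.{u} ⟶ _) ≫ (λ_ Δ[1]).hom) ▷ X ≫ (β_ Δ[1] X).hom = (λ_ X).hom ≫ ι₁ := by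
  rfl

theorem s_WEqofTC (h1 : MonoI.{u}) : WEqofTC.{u} := by
  intro A B j hj K _
  constructor
  · intro a
    have hT : KanComplex (⊤_ SSet.{u}) := by
      have : IsIso (terminal.from (⊤_ SSet.{u})) :=
        isIso_of_isTerminal terminalIsTerminal terminalIsTerminal _
      infer_instance
    have : HasLiftingProperty j (terminal.from K) := hj _
    have sq : CommSq a j (terminal.from K) (terminal.from B) := ⟨by simp⟩
    exact ⟨sq.lift, by rw [sq.fac_left]; exact WEqofTC_refl a⟩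
  · rintro b b' ⟨H⟩
    have hm : Mono (coprod.desc (ι₀ : 𝟙_ SSet.{u} ⟶ 𝟙_ SSet.{u} ⊗ Δ[1]) ι₁) := h1 _
    let m : (𝟙_ SSet.{u}) ⨿ (𝟙_ SSet.{u}) ⟶ Δ[1] := coprod.desc ι₀ ι₁ ≫ (λ_ Δ[1]).hom
    have hm' : Mono m := mono_comp _ _
    have hm0 : coprod.inl ≫ m = ι₀ ≫ (λ_ Δ[1]).hom := by
      rw [← Category.assoc, coprod.inl_desc]
    have hm1 : coprod.inr ≫ m = ι₁ ≫ (λ_ Δ[1]).hom := by
      rw [← Category.assoc, coprod.inr_desc]
    have : HasLiftingProperty j ((MonoidalClosed.pre m).app K) := hj _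
    obtain ⟨q, hq0, hq1⟩ := Sq_desc ((λ_ B).hom ≫ b) ((λ_ B).hom ≫ b')
    have sq : CommSq (MonoidalClosed.curry ((β_ Δ[1] A).hom ≫ H.h)) j
        ((MonoidalClosed.pre m).app K) (MonoidalClosed.curry q) := ⟨by
      rw [MonoidalClosed.curry_pre_app, ← MonoidalClosed.curry_natural_left]
      congr 1
      apply Sq_ext
      · rw [← comp_whiskerRight_assoc, hm0, reassoc_of% (WEqofTC_zero A), H.h₀,
          ← whisker_exchange_assoc, hq0, leftUnitor_naturality_assoc]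
      · rw [← comp_whiskerRight_assoc, hm1, reassoc_of% (WEqofTC_one A), H.h₁,
          ← whisker_exchange_assoc, hq1, leftUnitor_naturality_assoc]⟩
    obtain ⟨l, hl0⟩ : ∃ l : B ⟶ (ihom Δ[1]).obj K,
        l ≫ (MonoidalClosed.pre m).app K = MonoidalClosed.curry q := ⟨sq.lift, sq.fac_right⟩
    have hl : m ▷ B ≫ MonoidalClosed.uncurry l = q := by
      apply MonoidalClosed.curry_injective
      rw [← hl0, ← MonoidalClosed.curry_pre_app, MonoidalClosed.curry_uncurry]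
    refine WEqofTC_htpy ((β_ Δ[1] B).inv ≫ MonoidalClosed.uncurry l) ?_ ?_
    · rw [← cancel_epi (λ_ B).hom, ← hq0, ← hl, ← comp_whiskerRight_assoc, hm0,
        ← reassoc_of% (WEqofTC_zero B), Iso.hom_inv_id_assoc]
    · rw [← cancel_epi (λ_ B).hom, ← hq1, ← hl, ← comp_whiskerRight_assoc, hm1,
        ← reassoc_of% (WEqofTC_one B), Iso.hom_inv_id_assoc]

end Pool.Agent.PMC
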